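import Mathlib

set_option autoImplicit false

/-!
Tracial ultraproducts of matrix algebras, written with representing sequences.
-/

namespace Pool.Agent.H494Z.QEDefs

open Matrix Filter Topology
open scoped ComplexOrder

/-- sequences of complex matrices of sizes `d n` -/
abbrev Seq (d : ℕ → ℕ) : Type := ∀ n : ℕ, Matrix (Fin (d n)) (Fin (d n)) ℂ

/-- the normalised Hilbert-Schmidt norm -/
noncomputable def hs {k : ℕ} (x : Matrix (Fin k) (Fin k) ℂ) : ℝ :=
  Real.sqrt ((trace (xᴴ * x)).re / k)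

/-- sequences bounded in operator norm: `x_n* x_n ≤ C` for all `n` -/
def Bdd {d : ℕ → ℕ} (x : Seq d) : Prop :=
  ∃ C : ℝ, ∀ n, (C • (1 : Matrix (Fin (d n)) (Fin (d n)) ℂ) - (x n)ᴴ * x n).PosSemidef

/-- `x` and `y` have the same class in the tracial ultraproduct -/
def Same {d : ℕ → ℕ} (U : Ultrafilter ℕ) (x y : Seq d) : Prop :=
  Tendsto (fun n => hs (x n - y n)) U (𝓝 0)

/-- the classes of the bounded sequences `π g` form a homomorphism from `G` to the unitary group
of the tracial ultraproduct -/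
def IsUnitaryHom {d : ℕ → ℕ} (U : Ultrafilter ℕ) {G : Type} [Group G] (π : G → Seq d) : Prop :=
  (∀ g, Bdd (π g)) ∧ (∀ g, Same U (star (π g) * π g) 1 ∧ Same U (π g * star (π g)) 1) ∧
    ∀ g h, Same U (π (g * h)) (π g * π h)

/-- Kazhdan's property (T) for a discrete group -/
def HasT (G : Type) [Group G] : Prop :=
  ∃ (S : Finset G) (ε : ℝ), 0 < ε ∧
    ∀ (E : Type) [NormedAddCommGroup E] [InnerProductSpace ℂ E] [CompleteSpace E]
      (π : G →* (E →L[ℂ] E)),
      (∀ g : G, π g ∈ unitary (E →L[ℂ] E)) →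
      (∃ v : E, ‖v‖ = 1 ∧ ∀ s ∈ S, ‖(π s) v - v‖ < ε) →
      ∃ w : E, w ≠ 0 ∧ ∀ g : G, (π g) w = w

end Pool.Agent.H494Z.QEDefs
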