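import Pool.Agent.H304Z.NH.P1b
import Pool.Agent.H494Z.QE.Defs

set_option autoImplicit false
set_option linter.unusedSectionVars false
set_option linter.unusedVariables false

/-!
Statements of the pieces of the proof that the relative commutant of a Kazhdan group in a matrix
ultraproduct is an ultraproduct of finite-dimensional algebras.
-/

namespace Pool.Agent.H494Z.QE

open Matrix Finset Pool.Agent.H304Z.NH
open scoped MatrixOrder ComplexOrder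

section defs

variable {n : Type} [Fintype n] [DecidableEq n]

/-- Poincare inequality in the corner `p` -/
def PI {G : Type} (u : G → Mat n) (S : Finset G) (κ : ℝ) (p : Mat n) : Prop :=
  ∀ z : Mat n, zᴴ = z → p * z = z * p → ∃ c : ℝ, nsq (p * z - c • p) ≤ κ * en u S z

/-- expansion in the corner `U` at scales at least `e` -/
def Expand {G : Type} (u : G → Mat n) (S : Finset G) (γ e : ℝ) (U : Mat n) : Prop :=
  ∀ V : Mat n, IsProj V → V * U = V → e * tr U ≤ tr V → tr V ≤ tr U / 2 →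
    γ * tr V ≤ en u S V

end defs

/-- polar decomposition between two corners -/
def S_POL : Prop :=
  ∀ (n : Type) [Fintype n] [DecidableEq n] (p q y : Mat n), IsProj p → IsProj q → tr q ≤ tr p →
    p * y = y → y * q = y →
    ∃ w z : Mat n, p * w = w ∧ wᴴ * w = q ∧ 0 ≤ z ∧ q * z = z ∧ y = w * z ∧
      nsq (y - w) ≤ nsq (yᴴ * y - q)

/-- orthogonalisation of an almost orthogonal family of projections -/
def S_ORTH : Prop :=
  ∀ (n : Type) [Fintype n] [DecidableEq n] (ι : Type) [Fintype ι] (U : ι → Mat n),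
    (∀ j, IsProj (U j)) →
    ∃ W : ι → Mat n, (∀ j, W j * U j = W j) ∧ (∀ j, IsProj ((W j)ᴴ * W j)) ∧
      (∀ i j, i ≠ j → (W i)ᴴ * W j = 0) ∧
      ∑ j, nsq (W j - U j) ≤ 4 * (nsq (∑ j, U j) - tr (∑ j, U j))

/-- removal of the non-expanding part and the Cheeger inequality -/
def S_EXP : Prop :=
  ∀ (G : Type) (S : Finset G) (γ : ℝ), 0 < γ → ∃ κ : ℝ, 0 ≤ κ ∧
    ∀ (n : Type) [Fintype n] [DecidableEq n] (u : G → Mat n), (∀ g, IsU (u g)) →
    ∀ (U : Mat n) (e : ℝ), IsProj U → 0 < e → e ≤ 1 / 10 → Expand u S γ e U →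
      en u S U ≤ γ * e / 2 * tr U →
      ∃ p : Mat n, IsProj p ∧ p * U = p ∧ (1 - e) * tr U ≤ tr p ∧
        en u S p ≤ 3 * γ * e * tr U ∧ PI u S κ p

/-- covering by almost orthogonal corners that expand at large scales -/
def S_COV : Prop :=
  ∀ (G : Type) [Group G] (S : Finset G), Kaz G S →
    ∃ γ : ℝ, 0 < γ ∧ ∀ e ε : ℝ, 0 < e → 0 < ε → ∃ (W : Finset G) (δ : ℝ), 0 < δ ∧
      ∀ (n : Type) [Fintype n] [DecidableEq n] (u : G → Mat n), (∀ g, IsU (u g)) → u 1 = 1 →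
        (∀ g ∈ W, ∀ h ∈ W, nsq (df u g h) ≤ δ * Fintype.card n) →
        ∃ (ι : Type) (_ : Fintype ι) (U : ι → Mat n), (∀ j, IsProj (U j)) ∧
          (1 - ε) * Fintype.card n ≤ ∑ j, tr (U j) ∧
          nsq (∑ j, U j) - tr (∑ j, U j) ≤ ε * Fintype.card n ∧
          (∀ j, en u S (U j) ≤ ε * tr (U j)) ∧ ∀ j, Expand u S γ e (U j)

/-- quantum expander decomposition -/
def S_DEC : Prop :=
  ∀ (G : Type) [Group G] (S : Finset G), Kaz G S →
    ∃ κ : ℝ, 0 ≤ κ ∧ ∀ ε : ℝ, 0 < ε → ∀ W' : Finset G, ∃ (W : Finset G) (δ : ℝ), 0 < δ ∧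
      ∀ (n : Type) [Fintype n] [DecidableEq n] (u : G → Mat n), (∀ g, IsU (u g)) → u 1 = 1 →
        (∀ g ∈ W, ∀ h ∈ W, nsq (df u g h) ≤ δ * Fintype.card n) →
        ∃ (ι : Type) (_ : Fintype ι) (p : ι → Mat n), (∀ j, IsProj (p j)) ∧
          (∀ j, 0 < tr (p j)) ∧ (∀ i j, i ≠ j → p i * p j = 0) ∧
          (1 - ε) * Fintype.card n ≤ ∑ j, tr (p j) ∧
          (∀ j, en u S (p j) ≤ ε * tr (p j)) ∧ (∀ j, PI u S κ (p j)) ∧
          ∀ j, ∀ g ∈ W', ∀ h ∈ W', nsq (df u g h * p j) ≤ ε * tr (p j)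

/-- approximate Schur lemma -/
def S_SCHUR : Prop :=
  ∀ (G : Type) (S : Finset G) (κ : ℝ), 0 ≤ κ → ∃ C : ℝ, 1 ≤ C ∧
    ∀ (n : Type) [Fintype n] [DecidableEq n] (u : G → Mat n), (∀ g, IsU (u g)) →
    ∀ (p q y : Mat n) (θ : ℝ), IsProj p → IsProj q → p * q = 0 → PI u S κ p → PI u S κ q →
      tr q ≤ tr p → p * y = y → y * q = y → 0 ≤ θ → C * θ ≤ 1 → 0 < nsq y →
      en u S y ≤ θ * nsq y →
      ∃ w : Mat n, p * w = w ∧ wᴴ * w = q ∧ en u S w ≤ C * θ * tr q ∧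
        tr p - tr q ≤ C * θ * tr p

/-- the finite form of the theorem -/
def S_FIN : Prop :=
  ∀ (G : Type) [Group G] (S : Finset G), Kaz G S →
    ∃ C : ℝ, 0 ≤ C ∧ ∀ ε : ℝ, 0 < ε → ∃ (W : Finset G) (δ : ℝ), 0 < δ ∧
      ∀ (n : Type) [Fintype n] [DecidableEq n] (u : G → Mat n), (∀ g, IsU (u g)) → u 1 = 1 →
        (∀ g ∈ W, ∀ h ∈ W, nsq (df u g h) ≤ δ * Fintype.card n) →
        ∃ v : G → Mat n, (∀ s ∈ S, nsq (u s - v s) ≤ ε * Fintype.card n) ∧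
          ∀ x : Mat n, xᴴ * x ≤ 1 →
            ∃ a : Mat n, (∀ s ∈ S, v s * a = a * v s ∧ (v s)ᴴ * a = a * (v s)ᴴ) ∧
              nsq (x - a) ≤ C * en u S x + ε * Fintype.card n

/-- an element of a star subalgebra close to a contraction can be taken bounded -/
def S_CLAMP : Prop :=
  ∀ (n : Type) [Fintype n] [DecidableEq n] (A : StarSubalgebra ℂ (Mat n)) (x a : Mat n),
    xᴴ * x ≤ 1 → a ∈ A →
    ∃ b ∈ A, bᴴ * b ≤ (4 : ℝ) • (1 : Mat n) ∧ nsq (x - b) ≤ 16 * nsq (x - a)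

open Pool.Agent.H494Z.QEDefs in
/-- the theorem -/
def S_MAIN : Prop :=
  ∀ (G : Type) [Group G] [Countable G], HasT G →
    ∀ S : Finset G, Subgroup.closure (S : Set G) = ⊤ → (∀ s ∈ S, s⁻¹ ∈ S) →
    ∀ U : Ultrafilter ℕ, (U : Filter ℕ) ≤ Filter.cofinite →
    ∀ d : ℕ → ℕ, (∀ k, 0 < d k) → ∀ π : G → Seq d, IsUnitaryHom U π →
    ∃ A : ∀ k : ℕ, StarSubalgebra ℂ (Matrix (Fin (d k)) (Fin (d k)) ℂ),
      ∀ x : Seq d, Bdd x →
        ((∀ g, Same U (x * π g) (π g * x)) ↔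
          ∃ a : Seq d, Bdd a ∧ (∀ k, a k ∈ A k) ∧ Same U x a)

end Pool.Agent.H494Z.QE
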