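import Pool.Agent.H494Z.QE.Spec

set_option autoImplicit false
set_option linter.unusedSectionVars false
set_option linter.unusedVariables false

namespace Pool.Agent.H494Z.QE

open Matrix Finset Pool.Agent.H304Z.NH
open scoped MatrixOrder ComplexOrder

variable {n : Type} [Fintype n] [DecidableEq n]

theorem tilt_step2 {G : Type} (u : G → Mat n) (hu : ∀ g, IsU (u g)) (S : Finset G)
    {γ γ₁ σ Λ T e₀ : ℝ} (hγ₁ : 0 < γ₁) (hσ : 0 < σ) (he₀ : 0 < e₀)
    (htilt : ∀ V z : Mat n, IsProj V → z * V = z → z * zᴴ ≤ 1 → 49 / 50 * tr V ≤ nsq z →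
      en u S z ≤ γ₁ * tr V →
      ∃ q : Mat n, IsProj q ∧ (4 / 5 : ℝ) • q ≤ z * zᴴ ∧ tr V / 20 ≤ tr q ∧ en u S q ≤ γ * tr q)
    (j : ℕ) (q Us : ℕ → Mat n) (hq : ∀ i < j, IsProj (q i)) (hUs : ∀ i, IsProj (Us i))
    (R U Nn : Mat n) (hU : IsProj U) (hR0 : 0 ≤ R) (hR1 : R ≤ 1) (hΛ : 0 ≤ Λ)
    (hR2 : 1 - R * R ≤ (2 * Λ) • ∑ i ∈ range j, Us i)
    (hNn : ∑ i ∈ range j, (q i - Us i)ᴴ * (q i - Us i) ≤ Nn)
    (hT0 : 0 < T)
    (h2 : 2 * Λ * tr (U * ∑ i ∈ range j, Us i) ≤ e₀ * T / 50)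
    (h3 : tr (U * (R * (∑ i ∈ range j, Us i) * R)) ≤ σ * (e₀ * T) / 200)
    (h4 : ∑ s ∈ S, nsq (cm (u s) R * U) ≤ γ₁ * (e₀ * T) / 4)
    (h5 : tr (R * U * R * Nn) ≤ σ * (e₀ * T) / 200)
    (hmin : ∀ q', Cand u S γ σ (∑ i ∈ range j, q i) q' → T ≤ tr q')
    (V : Mat n) (hV : IsProj V) (hVU : V * U = V) (hlo : e₀ * T ≤ tr V)
    (hhi : tr V ≤ 13 / 20 * T) (hVe : en u S V ≤ γ₁ / 4 * tr V) : False := by
  have heT : 0 < e₀ * T := mul_pos he₀ hT0
  set P := ∑ i ∈ range j, Us i with hP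
  have hP0 : 0 ≤ P := sum_nonneg fun i _ => (hUs i).nonneg
  have hVle : V ≤ U := sub_proj_le hU hV hVU
  have hUV : U * V = V := by
    have := congrArg conjTranspose hVU
    rwa [conjTranspose_mul, hU.1, hV.1] at this
  have hRh : Rᴴ = R := herm hR0
  have hRR : R * R ≤ 1 := (sq_le_self hR0 hR1).trans hR1
  have hzz : (R * V) * (R * V)ᴴ = R * V * Rᴴ := by
    rw [conjTranspose_mul, hV.1, Matrix.mul_assoc, ← Matrix.mul_assoc V, hV.2, Matrix.mul_assoc]
  have hz1 : (R * V) * (R * V)ᴴ ≤ 1 := by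
    rw [hzz]
    have := conj_le' hV.le_one R
    rw [Matrix.mul_one, hRh] at this
    rw [hRh]
    exact this.trans hRR
  have hnz : nsq (R * V) = tr (V * (R * R)) := by
    rw [hV.nsq_mul, hRh, tr_comm]
  have hz2 : 49 / 50 * tr V ≤ nsq (R * V) := by
    have a1 := tr_mul_le hV.nonneg hR2
    rw [Matrix.mul_sub, Matrix.mul_one, tr_sub, Matrix.mul_smul, tr_smul] at a1
    have a2 := tr_mul_le' hP0 hVle
    have a3 := mul_le_mul_of_nonneg_left a2 (by linarith : 0 ≤ 2 * Λ)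
    rw [hnz]
    linarith
  have hz3 : en u S (R * V) ≤ γ₁ * tr V := by
    have a1 : ∀ s ∈ S, nsq (cm (u s) (R * V)) ≤
        2 * nsq (cm (u s) R * U) + 2 * nsq (cm (u s) V) := by
      intro s _
      rw [cm_mul]
      have b1 := nsq_add_le (cm (u s) R * V) (R * cm (u s) V)
      have b2 : nsq (cm (u s) R * V) ≤ nsq (cm (u s) R * U) := by
        have := nsq_mul_le_right hV.mul_star_le (cm (u s) R * U)
        rwa [Matrix.mul_assoc, hUV] at this
      have b3 : nsq (R * cm (u s) V) ≤ nsq (cm (u s) V) :=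
        nsq_mul_le_left (by rw [hRh]; exact hRR) _
      linarith
    have a2 := sum_le_sum a1
    rw [sum_add_distrib, ← Finset.mul_sum, ← Finset.mul_sum] at a2
    have a3 : ∑ s ∈ S, nsq (cm (u s) V) ≤ γ₁ / 4 * tr V := hVe
    have a4 : γ₁ * (e₀ * T) ≤ γ₁ * tr V := mul_le_mul_of_nonneg_left hlo hγ₁.le
    show ∑ s ∈ S, nsq (cm (u s) (R * V)) ≤ _
    linarith
  obtain ⟨q', hq', hle, hlow, hen⟩ := htilt V (R * V) hV
    (by rw [Matrix.mul_assoc, hV.2]) hz1 hz2 hz3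
  have hQ0 : 0 ≤ ∑ i ∈ range j, q i :=
    sum_nonneg fun i hi => (hq i (mem_range.mp hi)).nonneg
  have hup : 4 / 5 * tr q' ≤ tr V := by
    have a1 := tr_mono hle
    rw [tr_smul, ← nsq_eq', hnz] at a1
    have a2 := tr_mul_le hV.nonneg hRR
    rw [Matrix.mul_one] at a2
    linarith
  have hov : 4 / 5 * tr (q' * ∑ i ∈ range j, q i) ≤
      2 * tr (U * (R * P * R)) + 2 * tr (R * U * R * Nn) := by
    have a1 := tr_mul_le' hQ0 hle
    rw [Matrix.smul_mul, tr_smul] at a1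
    have a2 : tr (R * V * (R * V)ᴴ * ∑ i ∈ range j, q i) =
        ∑ i ∈ range j, nsq (q i * (R * V)) := by
      rw [Finset.mul_sum, tr_sum]
      refine sum_congr rfl fun i hi => ?_
      rw [(hq i (mem_range.mp hi)).nsq_mul']
    have a3 : ∀ i ∈ range j, nsq (q i * (R * V)) ≤
        2 * tr (R * V * (R * V)ᴴ * Us i) +
        2 * tr (R * V * (R * V)ᴴ * ((q i - Us i)ᴴ * (q i - Us i))) := by
      intro i _
      have b1 := nsq_add_le (Us i * (R * V)) ((q i - Us i) * (R * V))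
      have e : Us i * (R * V) + (q i - Us i) * (R * V) = q i * (R * V) := by noncomm_ring
      rw [e, (hUs i).nsq_mul', nsq_mul (q i - Us i), tr_comm ((q i - Us i)ᴴ * (q i - Us i))] at b1
      exact b1
    have a4 := sum_le_sum a3
    rw [sum_add_distrib, ← Finset.mul_sum, ← Finset.mul_sum, ← tr_sum, ← tr_sum,
      ← Finset.mul_sum, ← Finset.mul_sum, ← hP] at a4
    have hzU : R * V * (R * V)ᴴ ≤ R * U * R := by
      rw [hzz]
      have := conj_le' hVle R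
      rw [hRh] at this ⊢
      exact this
    have hN0 : 0 ≤ ∑ i ∈ range j, (q i - Us i)ᴴ * (q i - Us i) :=
      sum_nonneg fun i _ => star_mul_nonneg _
    have a5 := tr_mul_le' hP0 hzU
    have a6 : tr (R * U * R * P) = tr (U * (R * P * R)) := by
      rw [Matrix.mul_assoc R U, Matrix.mul_assoc R, tr_comm R]
      simp only [Matrix.mul_assoc]
    have a7 := tr_mul_le (mul_star_nonneg (R * V)) hNn
    have a8 := tr_mul_le' (hN0.trans hNn) hzU
    linarith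
  have hc : Cand u S γ σ (∑ i ∈ range j, q i) q' := by
    refine ⟨hq', by linarith, hen, ?_⟩
    have a1 : σ * (e₀ * T / 20) ≤ σ * tr q' := mul_le_mul_of_nonneg_left (by linarith) hσ.le
    have a2 : 0 < σ * (e₀ * T) := mul_pos hσ heT
    linarith
  have := hmin q' hc
  linarith


theorem en_mul_le {G : Type} (u : G → Mat n) (S : Finset G) {x y : Mat n} (hx : xᴴ * x ≤ 1)
    (hy : y * yᴴ ≤ 1) : en u S (x * y) ≤ 2 * en u S x + 2 * en u S y := by
  simp only [en, Finset.mul_sum, ← sum_add_distrib]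
  refine sum_le_sum fun s _ => ?_
  rw [cm_mul]
  have b1 := nsq_add_le (cm (u s) x * y) (x * cm (u s) y)
  have b2 := nsq_mul_le_right hy (cm (u s) x)
  have b3 := nsq_mul_le_left hx (cm (u s) y)
  linarith

theorem upgrade {G : Type} (u : G → Mat n) (hu : ∀ g, IsU (u g)) (S : Finset G) {γ γ₁ : ℝ}
    (hγ₁ : 0 < γ₁)
    (htilt : ∀ V z : Mat n, IsProj V → z * V = z → z * zᴴ ≤ 1 → 49 / 50 * tr V ≤ nsq z →
      en u S z ≤ γ₁ * tr V →
      ∃ q : Mat n, IsProj q ∧ (4 / 5 : ℝ) • q ≤ z * zᴴ ∧ tr V / 20 ≤ tr q ∧ en u S q ≤ γ * tr q)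
    (U V V₁ : Mat n) (hU : IsProj U) (hV : IsProj V) (hV₁ : IsProj V₁) (hVU : V * U = V)
    (h1 : en u S V₁ ≤ γ₁ / 8 * tr V) (h2 : nsq (V₁ - V) ≤ 1 / 100 * tr V)
    (h3 : en u S U ≤ γ₁ / 4 * tr V) :
    ∃ q : Mat n, IsProj q ∧ q * U = q ∧ tr V / 21 ≤ tr q ∧ tr q ≤ 127 / 100 * tr V ∧
      en u S q ≤ γ * tr q := by
  have hUV : U * V = V := by
    have := congrArg conjTranspose hVU
    rwa [conjTranspose_mul, hU.1, hV.1] at this
  have t1 := tr_proj_le hV₁ hV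
  have t2 := tr_proj_le hV hV₁
  rw [nsq_sub_comm] at t2
  have t0 := hV.tr_nonneg
  have hzz : (U * V₁) * (U * V₁)ᴴ = U * V₁ * U := by
    rw [conjTranspose_mul, hV₁.1, hU.1, Matrix.mul_assoc, ← Matrix.mul_assoc V₁, hV₁.2,
      Matrix.mul_assoc]
  have hzU : (U * V₁) * (U * V₁)ᴴ ≤ U := by
    rw [hzz]
    have := conj_le' hV₁.le_one U
    rwa [Matrix.mul_one, hU.1, hU.2] at this
  have hn : tr V₁ - 1 / 100 * tr V ≤ nsq (U * V₁) := by
    have a1 := nsq_mul_le_left hU.compl.star_mul_le (V₁ - V)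
    have e : (1 - U) * (V₁ - V) = (1 - U) * V₁ := by
      rw [Matrix.mul_sub, Matrix.sub_mul 1 U V, hUV, Matrix.one_mul, sub_self, sub_zero]
    rw [e, hU.compl.nsq_mul', hV₁.1, hV₁.2, Matrix.mul_sub, Matrix.mul_one, tr_sub] at a1
    rw [hU.nsq_mul', hV₁.1, hV₁.2]
    linarith
  have hn2 : nsq (U * V₁) ≤ tr V₁ := by
    have := nsq_mul_le_left hU.star_mul_le V₁
    rwa [hV₁.nsq_eq] at this
  obtain ⟨q, hq, hle, hlow, hen⟩ := htilt V₁ (U * V₁) hV₁ (by rw [Matrix.mul_assoc, hV₁.2])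
    (hzU.trans hU.le_one) (by linarith) (by
      have a1 := en_mul_le u S hU.star_mul_le hV₁.mul_star_le
      have a2 : γ₁ * (99 / 100 * tr V) ≤ γ₁ * tr V₁ :=
        mul_le_mul_of_nonneg_left (by linarith) hγ₁.le
      have a3 := mul_nonneg hγ₁.le t0
      linarith)
  refine ⟨q, hq, ?_, by linarith, ?_, hen⟩
  · have a1 := tr_mul_le hU.compl.nonneg (hle.trans hzU)
    rw [Matrix.mul_smul, tr_smul, Matrix.sub_mul 1 U U, hU.2, Matrix.one_mul, sub_self,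
      tr_zero] at a1
    have a2 : nsq (q * (1 - U)) = 0 := by
      refine le_antisymm ?_ (nsq_nonneg _)
      rw [hU.compl.nsq_mul, hq.1, hq.2, tr_comm]
      linarith
    have a3 := nsq_eq_zero a2
    rw [Matrix.mul_sub, Matrix.mul_one, sub_eq_zero] at a3
    exact a3.symm
  · have a1 := tr_mono hle
    rw [tr_smul, ← nsq_eq'] at a1
    linarith

end Pool.Agent.H494Z.QE
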