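import Pool.Agent.H494Z.QE.CovA
import Pool.Agent.H494Z.QE.CovB

set_option autoImplicit false
set_option linter.unusedSectionVars false
set_option linter.unusedVariables false

namespace Pool.Agent.H494Z.QE

open Matrix Finset Pool.Agent.H304Z.NH
open scoped MatrixOrder ComplexOrder

theorem defect_bound {G : Type} [Group G] (W : Finset G) (A : ℝ) (hA : 0 < A) :
    ∃ δ : ℝ, 0 < δ ∧ ∀ (n : Type) [Fintype n] [DecidableEq n] (u : G → Mat n), (∀ g, IsU (u g)) →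
      (∀ g ∈ W, ∀ h ∈ W, nsq (df u g h) ≤ δ * Fintype.card n) →
      ∃ b : Mat n, 0 ≤ b ∧ (∀ g ∈ W, ∀ h ∈ W, (df u g h)ᴴ * df u g h ≤ b) ∧
        ∀ (M : ℝ) (P : Mat n), 0 ≤ M → Fintype.card n ≤ 2 * M → nsq P ≤ 4 * M →
          tr (b * P) ≤ A * M := by
  refine ⟨A ^ 2 / (32 * ((W.card : ℝ) ^ 4 + 1)), by positivity, ?_⟩
  intro n _ _ u hu hW
  have hb00 : 0 ≤ ∑ p ∈ W ×ˢ W, (df u p.1 p.2)ᴴ * df u p.1 p.2 :=
    sum_nonneg fun p _ => star_mul_nonneg _
  refine ⟨_, hb00, fun g hg h hh => ?_, fun M P hM hd hP => ?_⟩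
  · exact single_le_sum (f := fun p : G × G => (df u p.1 p.2)ᴴ * df u p.1 p.2)
      (fun p _ => star_mul_nonneg _) (a := (g, h)) (mem_product.mpr ⟨hg, hh⟩)
  · have a1 := nsq_defects u hu W (by positivity) hW
    have a2 : 4 * (W.card : ℝ) ^ 4 *
        (A ^ 2 / (32 * ((W.card : ℝ) ^ 4 + 1)) * Fintype.card n) =
        ((W.card : ℝ) ^ 4 / ((W.card : ℝ) ^ 4 + 1)) * (A ^ 2 / 8 * Fintype.card n) := by
      field_simp
      ring
    have a3 : ((W.card : ℝ) ^ 4 / ((W.card : ℝ) ^ 4 + 1)) ≤ 1 := by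
      rw [div_le_one (by positivity)]
      linarith
    have a4 := mul_le_mul_of_nonneg_right a3
      (by positivity : 0 ≤ A ^ 2 / 8 * (Fintype.card n : ℝ))
    have a5 := mul_le_mul_of_nonneg_left hd (by positivity : 0 ≤ A ^ 2 / 8)
    rw [a2] at a1
    have a6 := tr_le_of_nsq' (x := ∑ p ∈ W ×ˢ W, (df u p.1 p.2)ᴴ * df u p.1 p.2) (y := P)
      (A := A / 2) (B := 2) (by positivity) (by norm_num) hM (by linarith) (by linarith)
    rw [herm hb00] at a6
    linarith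

theorem params (e ε : ℝ) (he : 0 < e) (hε : 0 < ε) :
    ∃ e₁ ε₁ Λ σ ν : ℝ, 0 < e₁ ∧ e₁ ≤ e ∧ e₁ ≤ 1 ∧ 0 < ε₁ ∧ 16 * ε₁ ≤ ε ∧ 16 * ε₁ ≤ 1 ∧ 1 ≤ Λ ∧
      0 < σ ∧ σ ≤ 1 / 100 ∧ σ ≤ ε₁ ∧ 0 < ν ∧ ν ≤ σ / 100 ∧ ν ≤ ε₁ / 6 ∧
      e₁ / 25 * (ε₁ / 6) * Λ = 1600 ∧ 400 * Λ * σ = e₁ / 25 * (ε₁ / 6) ∧
      800 * ν = σ * (e₁ / 25 * (ε₁ / 6)) := by
  obtain ⟨e₁, h1, h2, h3⟩ : ∃ e₁ : ℝ, 0 < e₁ ∧ e₁ ≤ e ∧ e₁ ≤ 1 :=
    ⟨min e 1, lt_min he one_pos, min_le_left _ _, min_le_right _ _⟩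
  obtain ⟨ε₁, h4, h5, h6⟩ : ∃ ε₁ : ℝ, 0 < ε₁ ∧ ε₁ ≤ ε / 16 ∧ ε₁ ≤ 1 / 16 :=
    ⟨min (ε / 16) (1 / 16), lt_min (by positivity) (by norm_num), min_le_left _ _,
      min_le_right _ _⟩
  obtain ⟨t, ht⟩ : ∃ t : ℝ, t = e₁ / 25 * (ε₁ / 6) := ⟨_, rfl⟩
  have t0 : 0 < t := by rw [ht]; positivity
  have t1 : t ≤ ε₁ / 6 := by rw [ht]; nlinarith
  have hΛ : 1 ≤ 1600 / t := by rw [le_div_iff₀ t0]; linarith
  have hσ : t / (400 * (1600 / t)) ≤ t / 400 := by
    apply div_le_div_of_nonneg_left t0.le (by norm_num)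
    linarith
  have hσ0 : 0 < t / (400 * (1600 / t)) := by positivity
  refine ⟨e₁, ε₁, 1600 / t, t / (400 * (1600 / t)), t / (400 * (1600 / t)) * t / 800, h1, h2, h3,
    h4, by linarith, by linarith, hΛ, hσ0, by linarith, by linarith, by positivity, ?_, ?_, ?_, ?_,
    ?_⟩
  · nlinarith
  · nlinarith
  · rw [← ht]; field_simp
  · rw [← ht]; field_simp
  · rw [← ht]; ring

theorem cov (hTH : S_TH) (hRS : S_RS) (hIMP : S_IMP) (hTILT : S_TILT) : S_COV := by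
  classical
  intro G _ S hK
  obtain ⟨γa, hγa, hIa⟩ := hIMP G S hK (1 / 100) (1 / 100) (by norm_num) le_rfl (by norm_num)
  refine ⟨γa, hγa, fun e ε he hε => ?_⟩
  obtain ⟨e₁, ε₁, Λ, σ, ν, he₁, he₁e, he₁1, hε₁, hε₁ε, hε₁1, hΛ, hσ, hσ1, hσε, hν, hνσ, hνρ,
    pΛ, pσ, pν⟩ := params e ε he hε
  obtain ⟨e₀, he₀d⟩ : ∃ e₀ : ℝ, e₀ = e₁ / 25 := ⟨_, rfl⟩
  obtain ⟨ρ, hρd⟩ : ∃ ρ : ℝ, ρ = ε₁ / 6 := ⟨_, rfl⟩
  rw [← he₀d, ← hρd] at pΛ pσ pν
  rw [← hρd] at hνρ
  have he₀ : 0 < e₀ := by rw [he₀d]; positivity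
  have hρ : 0 < ρ := by rw [hρd]; positivity
  obtain ⟨γc, hγc, hC⟩ := cand hTH hIMP G S hK σ ε₁ hσ (by linarith) hε₁ (by linarith)
  obtain ⟨γ₀, hγ₀, hI⟩ := hIMP G S hK σ ν hσ hσ1 hν
  obtain ⟨γ, hγ, hγ1, hγ2⟩ : ∃ γ : ℝ, 0 < γ ∧ γ ≤ γc ∧ γ ≤ γ₀ :=
    ⟨min γc γ₀, lt_min hγc hγ₀, min_le_left _ _, min_le_right _ _⟩
  obtain ⟨γ₁, hγ₁, hT⟩ := hTILT G S γ hγ
  obtain ⟨γ₂, hγ₂, hT2⟩ := hTILT G S (γ₁ / 4) (by positivity)
  obtain ⟨I₀, _, _, g₀, W₀, δ₀, hδ₀, hI0⟩ := hIa (γ₂ / 8) (by positivity)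
  obtain ⟨η', hη', hη'1, hη'2, hη'3⟩ : ∃ η' : ℝ, 0 < η' ∧ η' ≤ ε / 2 ∧
      η' ≤ ρ * γ₁ * e₀ / (800 * Λ ^ 2) ∧ η' ≤ γ₂ * e₁ / 8 :=
    ⟨min (ε / 2) (min (ρ * γ₁ * e₀ / (800 * Λ ^ 2)) (γ₂ * e₁ / 8)),
      lt_min (by positivity) (lt_min (by positivity) (by positivity)), min_le_left _ _,
      (min_le_right _ _).trans (min_le_left _ _), (min_le_right _ _).trans (min_le_right _ _)⟩
  obtain ⟨I, _, _, gi, W₁, δ', hδ', hI2⟩ := hI η' hη'
  obtain ⟨W₂, δ₂, hδ₂, hC2⟩ := hC γ hγ hγ1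
  obtain ⟨δ₃, hδ₃, hD1⟩ := defect_bound W₁ (δ' * ν) (by positivity)
  obtain ⟨δ₄, hδ₄, hD0⟩ := defect_bound W₀ (ρ * (δ₀ * e₁) / 2) (by positivity)
  refine ⟨W₀ ∪ W₁ ∪ W₂, min δ₂ (min δ₃ δ₄), lt_min hδ₂ (lt_min hδ₃ hδ₄), ?_⟩
  intro n _ _ u hu hu1 hW
  have hd0 : (0 : ℝ) ≤ Fintype.card n := Nat.cast_nonneg _
  rcases isEmpty_or_nonempty n with hn | hn
  · refine ⟨Empty, inferInstance, fun j => j.elim, fun j => j.elim, ?_, ?_, fun j => j.elim,
      fun j => j.elim⟩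
    · simp
    · simp [nsq_zero, tr_zero]
  have hd : (0 : ℝ) < Fintype.card n := by exact_mod_cast Fintype.card_pos
  obtain ⟨b0, hb00, hb01, hb02⟩ := hD1 n u hu fun g hg h hh =>
    (hW g (by simp [hg]) h (by simp [hh])).trans (mul_le_mul_of_nonneg_right
      ((min_le_right _ _).trans (min_le_left _ _)) hd0)
  obtain ⟨b1, hb10, hb11, hb12⟩ := hD0 n u hu fun g hg h hh =>
    (hW g (by simp [hg]) h (by simp [hh])).trans (mul_le_mul_of_nonneg_right
      ((min_le_right _ _).trans (min_le_right _ _)) hd0)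
  obtain ⟨N, q, hq, hstop⟩ := greedy2 u S (γ := γ) (σ := σ) (by linarith)
  have hqp : ∀ j < N, IsProj (q j) := fun j hj => (hq j hj).1.1
  have hM : (1 - ε₁) * Fintype.card n < tr (∑ i ∈ range N, q i) := by
    by_contra hcon
    exact hstop (hC2 n u hu hu1 (fun g hg h hh =>
      (hW g (by simp [hg]) h (by simp [hh])).trans (mul_le_mul_of_nonneg_right
        (min_le_left _ _) hd0)) N q (fun j hj => (hq j hj).1) (not_lt.mp hcon))
  have hQ := nsq_cand fun j hj => (hq j hj).1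
  have hQd := two_tr_le_card (∑ i ∈ range N, q i)
  set M := tr (∑ i ∈ range N, q i) with hMdef
  have hMs : M = ∑ j ∈ range N, tr (q j) := tr_sum _ _
  have hdM : (Fintype.card n : ℝ) ≤ 2 * M := by nlinarith
  have hM0 : 0 < M := by linarith
  have hσM : σ * M ≤ 1 / 100 * M := mul_le_mul_of_nonneg_right hσ1 hM0.le
  have hσM0 : 0 < σ * M := mul_pos hσ hM0
  have hνM : ν * M ≤ σ / 100 * M := mul_le_mul_of_nonneg_right hνσ hM0.le
  have hMd : M ≤ 2 * Fintype.card n := by linarith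
  have hQ0 : 0 ≤ ∑ i ∈ range N, q i := sum_nonneg fun i hi => (hqp i (mem_range.mp hi)).nonneg
  have hb0Q := hb02 M _ hM0.le hdM (by linarith : nsq (∑ i ∈ range N, q i) ≤ 4 * M)
  let B : ℕ → ℝ := fun j => if tr (b0 * q j) ≤ δ' * tr (q j) then 0 else tr (q j)
  have hB0 : ∀ j < N, 0 ≤ B j := by
    intro j hj
    simp only [B]
    split_ifs
    · exact le_rfl
    · exact (hqp j hj).tr_nonneg
  have hB : ∑ j ∈ range N, B j ≤ ν * M := by
    have a1 : ∀ j ∈ range N, δ' * B j ≤ tr (b0 * q j) := by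
      intro j hj
      simp only [B]
      split_ifs with h
      · rw [mul_zero]
        exact tr_mul_nonneg hb00 (hqp j (mem_range.mp hj)).nonneg
      · exact (not_le.mp h).le
    have a2 := sum_le_sum a1
    rw [← Finset.mul_sum, ← tr_sum, ← Finset.mul_sum] at a2
    have a3 : δ' * ∑ j ∈ range N, B j ≤ δ' * (ν * M) := by linarith
    exact le_of_mul_le_mul_left a3 hδ'
  have hex : ∀ j, ∃ U : Mat n, IsProj U ∧ (j < N →
      (1 - 2 * σ) • U ≤ av u gi (q j) ∧ en u S U ≤ η' * tr (q j) ∧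
      nsq (U - q j) ≤ ν * tr (q j) + B j) := by
    intro j
    by_cases hj : j < N
    · by_cases hg : tr (b0 * q j) ≤ δ' * tr (q j)
      · have a1 : ∀ g ∈ W₁, ∀ h ∈ W₁, nsq (df u g h * q j) ≤ δ' * tr (q j) := by
          intro g hg' h hh
          rw [(hqp j hj).nsq_mul]
          exact le_trans (tr_mul_le' (hqp j hj).nonneg (hb01 g hg' h hh)) hg
        obtain ⟨U, h1, h2, h3, h4⟩ := hI2 n u hu hu1 (q j) (hqp j hj) a1
          ((hq j hj).1.2.2.1.trans (mul_le_mul_of_nonneg_right hγ2 (hqp j hj).tr_nonneg))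
        exact ⟨U, h1, fun _ => ⟨h2, h3, by have := hB0 j hj; linarith⟩⟩
      · refine ⟨0, isProj_zero, fun _ => ⟨?_, ?_, ?_⟩⟩
        · rw [smul_zero]
          exact av_nonneg u gi (hqp j hj).nonneg
        · have : en u S (0 : Mat n) = 0 := by simp [en, cm, nsq_zero]
          rw [this]
          exact mul_nonneg hη'.le (hqp j hj).tr_nonneg
        · have e : B j = tr (q j) := by simp only [B]; rw [if_neg hg]
          rw [zero_sub, nsq_neg, (hqp j hj).nsq_eq, e]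
          have := mul_nonneg hν.le (hqp j hj).tr_nonneg
          linarith
    · exact ⟨0, isProj_zero, fun h => absurd h hj⟩
  choose Us hUs hUq using hex
  have hdist : ∑ j ∈ range N, nsq (Us j - q j) ≤ 2 * (ν * M) := by
    have a1 : ∑ j ∈ range N, nsq (Us j - q j) ≤ ∑ j ∈ range N, (ν * tr (q j) + B j) :=
      sum_le_sum fun j hj => (hUq j (mem_range.mp hj)).2.2
    rw [sum_add_distrib, ← Finset.mul_sum, ← hMs] at a1
    linarith
  have hP0 : 0 ≤ ∑ i ∈ range N, Us i := sum_nonneg fun i _ => (hUs i).nonneg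
  have hP : nsq (∑ i ∈ range N, Us i) ≤ (1 + 7 * σ) * M := by
    have a1 : (1 - 2 * σ) • ∑ i ∈ range N, Us i ≤ av u gi (∑ i ∈ range N, q i) := by
      rw [av_sum, Finset.smul_sum]
      exact sum_le_sum fun j hj => (hUq j (mem_range.mp hj)).1
    have a2 := nsq_mono (rsmul_nonneg (by linarith) hP0) a1
    rw [nsq_smul] at a2
    have a3 := nsq_av_le u hu gi (∑ i ∈ range N, q i)
    have a4 : (1 + 2 * σ) ≤ (1 - 2 * σ) ^ 2 * (1 + 7 * σ) := by
      have : 0 ≤ σ * (3 - 24 * σ) := mul_nonneg hσ.le (by linarith)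
      have : 0 ≤ σ * σ * σ := by positivity
      nlinarith
    have a5 := mul_le_mul_of_nonneg_right a4 hM0.le
    have a6 : (1 - 2 * σ) ^ 2 * nsq (∑ i ∈ range N, Us i) ≤
        (1 - 2 * σ) ^ 2 * ((1 + 7 * σ) * M) := by linarith
    exact le_of_mul_le_mul_left a6 (pow_pos (by linarith) 2)
  have hPt : M - 2 * (ν * M) ≤ tr (∑ i ∈ range N, Us i) := by
    have a1 : ∑ j ∈ range N, tr (q j) ≤ ∑ j ∈ range N, (tr (Us j) + nsq (Us j - q j)) :=
      sum_le_sum fun j hj => tr_proj_le (hUs j) (hqp j (mem_range.mp hj))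
    rw [sum_add_distrib, ← hMs, ← tr_sum] at a1
    linarith
  obtain ⟨R, hR, hRN⟩ := hRS n Us hUs Λ hΛ
  obtain ⟨hRb, hRc, hRd⟩ := hRN N
  set Nn := ∑ i ∈ range N, (q i - Us i)ᴴ * (q i - Us i) with hNn
  have hNn0 : 0 ≤ Nn := sum_nonneg fun i _ => star_mul_nonneg _
  have hX2' : ∑ j ∈ range N, tr (Us j * ∑ i ∈ range j, Us i) ≤ 4 * (σ * M) := by
    have a1 := nsq_sum_proj Us N fun j _ => hUs j
    linarith
  have hX2 : ∑ j ∈ range N, 100 * Λ * tr (Us j * ∑ i ∈ range j, Us i) / e₀ ≤ ρ * M := by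
    rw [← Finset.sum_div, ← Finset.mul_sum, div_le_iff₀ he₀]
    have a1 := mul_le_mul_of_nonneg_left hX2' (by positivity : 0 ≤ 100 * Λ)
    have a2 : 100 * Λ * (4 * (σ * M)) = ρ * M * e₀ := by
      calc _ = (400 * Λ * σ) * M := by ring
        _ = _ := by rw [pσ]; ring
    linarith
  have hX3 : ∑ j ∈ range N, 200 * tr (Us j * (R j * (∑ i ∈ range j, Us i) * R j)) / (σ * e₀) ≤
      ρ * M := by
    rw [← Finset.sum_div, ← Finset.mul_sum, div_le_iff₀ (by positivity)]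
    rw [le_div_iff₀ (by linarith)] at hRc
    have a1 : ρ * M * (σ * e₀) * Λ = 1600 * (σ * M) := by
      calc _ = (e₀ * ρ * Λ) * (σ * M) := by ring
        _ = _ := by rw [pΛ]
    refine le_of_mul_le_mul_right ?_ (by linarith : 0 < Λ)
    rw [a1]
    linarith
  have hX4 : ∑ j ∈ range N, 4 * (∑ s ∈ S, nsq (cm (u s) (R j) * Us j)) / (γ₁ * e₀) ≤ ρ * M := by
    rw [← Finset.sum_div, ← Finset.mul_sum, div_le_iff₀ (by positivity), sum_comm]
    have a1 : ∑ s ∈ S, ∑ j ∈ range N, nsq (cm (u s) (R j) * Us j) ≤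
        ∑ s ∈ S, 200 * Λ ^ 2 * ∑ j ∈ range N, nsq (cm (u s) (Us j)) :=
      sum_le_sum fun s _ => hRd (u s) (hu s)
    rw [← Finset.mul_sum] at a1
    have a2 : ∑ j ∈ range N, ∑ s ∈ S, nsq (cm (u s) (Us j)) ≤ ∑ j ∈ range N, η' * tr (q j) :=
      sum_le_sum fun j hj => (hUq j (mem_range.mp hj)).2.1
    rw [← Finset.mul_sum, ← hMs, sum_comm] at a2
    have a3 := mul_le_mul_of_nonneg_left a2 (by positivity : 0 ≤ 200 * Λ ^ 2)
    rw [le_div_iff₀ (by positivity)] at hη'2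
    have a4 := mul_le_mul_of_nonneg_right hη'2 hM0.le
    linarith
  have hX5 : ∑ j ∈ range N, 200 * tr (R j * Us j * R j * Nn) / (σ * e₀) ≤ ρ * M := by
    rw [← Finset.sum_div, ← Finset.mul_sum, div_le_iff₀ (by positivity), ← tr_sum,
      ← Finset.sum_mul]
    have a1 := tr_mul_le' hNn0 hRb
    rw [Matrix.smul_mul, Matrix.one_mul, tr_smul] at a1
    have a2 : tr Nn = ∑ j ∈ range N, nsq (Us j - q j) := by
      rw [hNn, tr_sum]
      exact sum_congr rfl fun j _ => by rw [← nsq_eq, nsq_sub_comm]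
    have a3 : ρ * M * (σ * e₀) = 800 * (ν * M) := by
      calc _ = (σ * (e₀ * ρ)) * M := by ring
        _ = _ := by rw [← pν]; ring
    linarith
  have hX6 : ∑ j ∈ range N, 2 * tr (b1 * Us j) / (δ₀ * e₁) ≤ ρ * M := by
    rw [← Finset.sum_div, ← Finset.mul_sum, div_le_iff₀ (by positivity), ← tr_sum,
      ← Finset.mul_sum]
    have a1 := hb12 M _ hM0.le hdM (by linarith : nsq (∑ i ∈ range N, Us i) ≤ 4 * M)
    linarith
  let F : ℕ → ℝ := fun j => B j + 100 * Λ * tr (Us j * ∑ i ∈ range j, Us i) / e₀ +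
    200 * tr (Us j * (R j * (∑ i ∈ range j, Us i) * R j)) / (σ * e₀) +
    4 * (∑ s ∈ S, nsq (cm (u s) (R j) * Us j)) / (γ₁ * e₀) +
    200 * tr (R j * Us j * R j * Nn) / (σ * e₀) + 2 * tr (b1 * Us j) / (δ₀ * e₁)
  have hF : ∑ j ∈ range N, F j ≤ ε₁ * M := by
    simp only [F, sum_add_distrib]
    have a1 := mul_le_mul_of_nonneg_right hνρ hM0.le
    have a2 : ε₁ * M = 6 * (ρ * M) := by rw [hρd]; ring
    linarith
  have hkey : ∀ j < N, 0 ≤ F j ∧ (F j < tr (q j) → (1 - ν) * tr (q j) ≤ tr (Us j) ∧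
      en u S (Us j) ≤ ε * tr (Us j) ∧ Expand u S γa e (Us j)) := by
    intro j hj'
    have hPj : 0 ≤ ∑ i ∈ range j, Us i := sum_nonneg fun i _ => (hUs i).nonneg
    have hRh : (R j)ᴴ = R j := herm (hR j).1
    have y1 := hB0 j hj'
    have y2 : 0 ≤ 100 * Λ * tr (Us j * ∑ i ∈ range j, Us i) / e₀ := by
      have := tr_mul_nonneg (hUs j).nonneg hPj
      positivity
    have y3 : 0 ≤ 200 * tr (Us j * (R j * (∑ i ∈ range j, Us i) * R j)) / (σ * e₀) := by
      have : 0 ≤ tr (Us j * (R j * (∑ i ∈ range j, Us i) * R j)) := by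
        refine tr_mul_nonneg (hUs j).nonneg ?_
        have := conj_nonneg hPj (R j)
        rwa [hRh] at this
      positivity
    have y4 : 0 ≤ 4 * (∑ s ∈ S, nsq (cm (u s) (R j) * Us j)) / (γ₁ * e₀) := by
      have : 0 ≤ ∑ s ∈ S, nsq (cm (u s) (R j) * Us j) := sum_nonneg fun _ _ => nsq_nonneg _
      positivity
    have y5 : 0 ≤ 200 * tr (R j * Us j * R j * Nn) / (σ * e₀) := by
      have : 0 ≤ tr (R j * Us j * R j * Nn) := by
        refine tr_mul_nonneg ?_ hNn0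
        have := conj_nonneg (hUs j).nonneg (R j)
        rwa [hRh] at this
      positivity
    have y6 : 0 ≤ 2 * tr (b1 * Us j) / (δ₀ * e₁) := by
      have := tr_mul_nonneg hb10 (hUs j).nonneg
      positivity
    refine ⟨by simp only [F]; linarith, fun hj => ?_⟩
    simp only [F] at hj
    have hT0 : 0 < tr (q j) := (hq j hj').1.2.1
    have hBj : B j = 0 := by
      by_contra hne
      have e : B j = tr (q j) := by
        simp only [B] at hne ⊢
        split_ifs with h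
        · rw [if_pos h] at hne
          exact absurd rfl hne
        · rfl
      linarith
    obtain ⟨z1, z2, z3⟩ := hUq j hj'
    have t1 := tr_proj_le (hUs j) (hqp j hj')
    have t2 := tr_proj_le (hqp j hj') (hUs j)
    rw [nsq_sub_comm] at t2
    have t3 : ν * tr (q j) ≤ 1 / 100 * tr (q j) :=
      mul_le_mul_of_nonneg_right (by linarith) hT0.le
    have hTU : 99 / 100 * tr (q j) ≤ tr (Us j) := by linarith
    have hUT : tr (Us j) ≤ 101 / 100 * tr (q j) := by linarith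
    refine ⟨by linarith, ?_, ?_⟩
    · have a1 := mul_le_mul_of_nonneg_right hη'1 hT0.le
      have a2 := mul_le_mul_of_nonneg_left hTU hε.le
      have a3 : 0 < ε * tr (q j) := mul_pos hε hT0
      linarith
    · intro V hV hVU hlo hhi
      by_contra hcon
      have hlo' : e₁ * (99 / 100 * tr (q j)) ≤ tr V :=
        (mul_le_mul he₁e hTU (by linarith) he.le).trans hlo
      have heT : 0 < e₁ * tr (q j) := mul_pos he₁ hT0
      have hVle : V ≤ Us j := sub_proj_le (hUs j) hV hVU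
      have w2 : 100 * Λ * tr (Us j * ∑ i ∈ range j, Us i) / e₀ ≤ tr (q j) := by linarith
      have w3 : 200 * tr (Us j * (R j * (∑ i ∈ range j, Us i) * R j)) / (σ * e₀) ≤ tr (q j) := by
        linarith
      have w4 : 4 * (∑ s ∈ S, nsq (cm (u s) (R j) * Us j)) / (γ₁ * e₀) ≤ tr (q j) := by linarith
      have w5 : 200 * tr (R j * Us j * R j * Nn) / (σ * e₀) ≤ tr (q j) := by linarith
      have w6 : 2 * tr (b1 * Us j) / (δ₀ * e₁) ≤ tr (q j) := by linarith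
      rw [div_le_iff₀ (by positivity)] at w2 w3 w4 w5 w6
      obtain ⟨V₁, hV₁, _, hV2, hV3⟩ := hI0 n u hu hu1 V hV (fun g hg h hh => by
        rw [hV.nsq_mul]
        have a1 := tr_mul_le' hV.nonneg (hb11 g hg h hh)
        have a2 := tr_mul_le hb10 hVle
        have a3 := mul_le_mul_of_nonneg_left hlo' hδ₀.le
        have a4 := mul_pos hδ₀ heT
        linarith) (not_le.mp hcon).le
      obtain ⟨q', hq'1, hq'2, hq'3, hq'4, hq'5⟩ := upgrade u hu S hγ₂ (hT2 n u hu) (Us j) V V₁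
        (hUs j) hV hV₁ hVU hV2 hV3 (by
          have a1 := mul_le_mul_of_nonneg_right hη'3 hT0.le
          have a2 := mul_le_mul_of_nonneg_left hlo' hγ₂.le
          have a3 := mul_pos hγ₂ heT
          linarith)
      refine tilt_step2 u hu S (γ := γ) (σ := σ) (Λ := Λ) (T := tr (q j)) hγ₁ hσ he₀
        (hT n u hu) j q Us (fun i hi => hqp i (hi.trans hj')) hUs (R j) (Us j) Nn
        (hUs j) (hR j).1 (hR j).2.1 (by linarith) (hR j).2.2 ?_ hT0 (by linarith)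
        (by linarith) (by linarith) (by linarith) (hq j hj').2 q' hq'1 hq'2
        (by rw [he₀d]; linarith) (by linarith) hq'5
      exact sum_le_sum_of_subset_of_nonneg (range_subset_range.mpr hj'.le)
        fun i _ _ => star_mul_nonneg _
  let U' : ℕ → Mat n := fun j => if F j < tr (q j) then Us j else 0
  have hU' : ∀ j, IsProj (U' j) := by
    intro j
    simp only [U']
    split_ifs
    · exact hUs j
    · exact isProj_zero
  have hU'le : ∀ j, U' j ≤ Us j := by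
    intro j
    simp only [U']
    split_ifs
    · exact le_rfl
    · exact (hUs j).nonneg
  refine ⟨Fin N, inferInstance, fun j => U' j, fun j => hU' j, ?_, ?_, fun j => ?_, fun j => ?_⟩
  · rw [Fin.sum_univ_eq_sum_range (fun j => tr (U' j)) N]
    have a1 : ∀ j ∈ range N, (1 - ν) * tr (q j) ≤ tr (U' j) + F j := by
      intro j hj
      have hj' := mem_range.mp hj
      have b1 := hkey j hj'
      simp only [U']
      split_ifs with h
      · have := (b1.2 h).1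
        linarith [b1.1]
      · rw [tr_zero]
        have := mul_nonneg hν.le (hqp j hj').tr_nonneg
        linarith [not_lt.mp h]
    have a2 := sum_le_sum a1
    rw [← Finset.mul_sum, ← hMs, sum_add_distrib] at a2
    have a3 : σ * M ≤ ε₁ * M := mul_le_mul_of_nonneg_right hσε hM0.le
    have a4 : ε₁ * M ≤ ε₁ * (2 * Fintype.card n) := mul_le_mul_of_nonneg_left hMd hε₁.le
    have a5 := mul_le_mul_of_nonneg_right hε₁ε hd0
    have a6 := mul_nonneg hε₁.le hd0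
    linarith
  · rw [Fin.sum_univ_eq_sum_range U' N, nsq_sum_proj U' N fun j _ => hU' j]
    have a1 : ∑ j ∈ range N, tr (U' j * ∑ i ∈ range j, U' i) ≤
        ∑ j ∈ range N, tr (Us j * ∑ i ∈ range j, Us i) := by
      refine sum_le_sum fun j _ => ?_
      have b1 : ∑ i ∈ range j, U' i ≤ ∑ i ∈ range j, Us i := sum_le_sum fun i _ => hU'le i
      exact (tr_mul_le (hU' j).nonneg b1).trans
        (tr_mul_le' (sum_nonneg fun i _ => (hUs i).nonneg) (hU'le j))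
    have a3 : σ * M ≤ ε₁ * M := mul_le_mul_of_nonneg_right hσε hM0.le
    have a4 : ε₁ * M ≤ ε₁ * (2 * Fintype.card n) := mul_le_mul_of_nonneg_left hMd hε₁.le
    have a5 := mul_le_mul_of_nonneg_right hε₁ε hd0
    linarith
  · simp only [U']
    split_ifs with h
    · exact ((hkey j j.2).2 h).2.1
    · simp [en, cm, nsq_zero, tr_zero]
  · simp only [U']
    split_ifs with h
    · exact ((hkey j j.2).2 h).2.2
    · intro V _ hV _ _
      rw [Matrix.mul_zero] at hV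
      rw [← hV]
      simp [en, cm, nsq_zero, tr_zero]

end Pool.Agent.H494Z.QE
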