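import Pool.Agent.H494Z.QE.FinC
import Pool.Agent.H494Z.QE.CovC
import Pool.Agent.H234Z.Pol
import Pool.Agent.H231Z.QE.Exp
import Pool.Agent.H509Z.QE.Clamp
import Pool.Agent.H509Z.QE.Ult
import Pool.Agent.H186Z.QE.Dec
import Pool.Agent.H515Z.GMMat
import Pool.Agent.H602Z.NHImp
import Pool.Agent.H602Z.NHTilt
import Pool.Agent.H726Z.NH.TH
import Pool.Agent.H374Z.RS.Main

set_option autoImplicit false

namespace Pool.Agent.H494Z.QE

theorem cov_all : S_COV :=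
  cov Pool.Agent.H726Z.NH.th Pool.Agent.H374Z.RS.rs
    (Pool.Agent.H602Z.NH.imp Pool.Agent.H726Z.NH.th Pool.Agent.H515Z.GM.gm)
    (Pool.Agent.H602Z.NH.tilt Pool.Agent.H726Z.NH.th)

theorem dec_all : S_DEC :=
  Pool.Agent.H186Z.QE.dec (Pool.Agent.H234Z.Pol.orth Pool.Agent.H234Z.Pol.pol)
    Pool.Agent.H231Z.QE.exp cov_all

theorem schur_all : S_SCHUR := schur Pool.Agent.H234Z.Pol.pol

theorem fin_all : S_FIN := fin Pool.Agent.H515Z.GM.gm dec_all schur_all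

theorem main_all : S_MAIN :=
  Pool.Agent.H509Z.QE.ult Pool.Agent.H234Z.Pol.pol Pool.Agent.H509Z.QE.clamp fin_all

end Pool.Agent.H494Z.QE
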