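import Pool.Agent.H374Z.RS.Main

set_option autoImplicit false
set_option linter.unusedSectionVars false

/-! A variant of the resolvent estimates of `H374Z.RS` that exposes the resolvent. -/

namespace Pool.Agent.H494Z.QE.RS2

open Matrix Finset Pool.Agent.H304Z.NH Pool.Agent.H374Z.RS
open scoped MatrixOrder ComplexOrder

variable {n : Type} [Fintype n] [DecidableEq n]

theorem rs2 (U : ℕ → Mat n) (hU : ∀ j, IsProj (U j)) (L : ℝ) (hL : 1 ≤ L) :
    ∃ R : ℕ → Mat n, (∀ j, Res L (∑ i ∈ range j, U i) (R j)) ∧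
      ∀ N : ℕ, tr (1 - R N) ≤ tr (∑ i ∈ range N, U i) ∧
        ∀ u : Mat n, IsU u → ∑ j ∈ range N, nsq (cm u (R j) * U j) ≤
          200 * L ^ 2 * ∑ j ∈ range N, nsq (cm u (U j)) := by
  have hQ : ∀ j, 0 ≤ ∑ i ∈ range j, U i := fun j => sum_nonneg fun i _ => proj_nn (hU i)
  choose R hR using fun j => exists_res hL (hQ j)
  have hR' : ∀ j, Res L (∑ i ∈ range j, U i + U j) (R (j + 1)) := fun j => by
    have := hR (j + 1)
    rwa [sum_range_succ] at this
  have h0 : R 0 = 1 := by simpa using (hR 0).l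
  have hW : ∀ N, ∑ j ∈ range N, R j * U j * R j ≤ (2 : ℝ) • (1 : Mat n) := by
    intro N
    have h1 : ∀ N, R N ≤ 1 - (1 / 2 : ℝ) • ∑ j ∈ range N, R j * U j * R j := by
      intro N
      induction N with
      | zero => simp [h0]
      | succ N ih =>
        rw [sum_range_succ, smul_add, ← sub_sub]
        exact ((hR N).W (hR' N) (hU N)).trans (sub_le_sub_right ih _)
    have h2 := smul_nn (r := 2) (by norm_num) ((hR N).nn.trans (h1 N))
    rw [smul_sub, smul_smul] at h2
    simpa using h2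
  refine ⟨R, hR, fun N => ⟨?_, fun u _ => ?_⟩⟩
  · have h1 : ∀ N, tr (1 - R N) ≤ L / (1 + L) * (tr (∑ i ∈ range N, U i)
        - L * ∑ j ∈ range N, tr (U j * (R j * (∑ i ∈ range j, U i) * R j))) := by
      intro N
      induction N with
      | zero => simp [h0, tr_zero]
      | succ N ih =>
        have h2 := (hR N).upper (hR' N) (hU N)
        rw [sum_range_succ, sum_range_succ, tr_add]
        rw [tr_sub] at *
        linarith
    have h2 := h1 N
    have h3 : 0 ≤ ∑ j ∈ range N, tr (U j * (R j * (∑ i ∈ range j, U i) * R j)) :=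
      sum_nonneg fun j _ => tr_mul_nonneg (proj_nn (hU j)) (cj' (hQ j) (hR j).hR)
    have c0 : 0 < L / (1 + L) := by positivity
    have c1 : L / (1 + L) ≤ 1 := by rw [div_le_one (by linarith)]; linarith
    have c2 := tr_nonneg (hQ N)
    generalize L / (1 + L) = c at *
    generalize ∑ j ∈ range N, tr (U j * (R j * (∑ i ∈ range j, U i) * R j)) = X at *
    have h5 : 0 ≤ c * (L * X) := mul_nonneg c0.le (mul_nonneg (by linarith) h3)
    nlinarith
  · obtain ⟨p, hp⟩ : ∃ p : ℕ → Mat n, p = fun i => (1 - U i) * u * U i := ⟨_, rfl⟩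
    obtain ⟨m, hm⟩ : ∃ m : ℕ → Mat n, m = fun i => U i * u * (1 - U i) := ⟨_, rfl⟩
    have hpU : ∀ i, p i * U i = p i := fun i => by rw [hp]; simp only [mul_assoc, (hU i).2]
    have hUm : ∀ i, U i * m i = m i := fun i => by rw [hm]; simp only [← mul_assoc, (hU i).2]
    have hcm : ∀ j, cm u (∑ i ∈ range j, U i) = ∑ i ∈ range j, p i - ∑ i ∈ range j, m i := by
      intro j
      rw [cm, mul_sum, sum_mul, ← sum_sub_distrib, ← sum_sub_distrib, hp, hm]
      exact sum_congr rfl fun i _ => by noncomm_ring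
    have h1 : ∀ N, tr ((∑ i ∈ range N, p i) * R N * (∑ i ∈ range N, p i)ᴴ)
        ≤ 10 * ∑ i ∈ range N, nsq (p i)
          - (∑ j ∈ range N, nsq ((∑ i ∈ range j, p i) * R j * U j)) / 8 := by
      intro N
      induction N with
      | zero => simp [tr_zero]
      | succ N ih =>
        have h2 := (hR N).plus (hR' N) (hU N) (∑ i ∈ range N, p i) (p N) (hpU N)
        rw [sum_range_succ, sum_range_succ, sum_range_succ]
        linarith
    have h2 := (tr_nonneg (star_right_conjugate_nonneg (hR N).nn _)).trans (h1 N)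
    have h3 : ∀ j ∈ range N, nsq (cm u (R j) * U j) ≤
        L ^ 2 * (2 * nsq ((∑ i ∈ range j, p i) * R j * U j)
          + 2 * ∑ i ∈ range N, nsq (m i * R j * U j)) := by
      intro j hj
      have e1 : R j * cm u (∑ i ∈ range j, U i) * R j * U j
          = R j * ((∑ i ∈ range j, p i) * R j * U j)
            - R j * ∑ i ∈ range j, U i * (m i * R j * U j) := by
        simp only [hcm, mul_sub, sub_mul, ← mul_assoc, hUm, ← sum_mul]
      rw [(hR j).cm_eq, smul_mul_assoc, nsq_smul, neg_sq, e1]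
      refine mul_le_mul_of_nonneg_left ((nsq_sub_le _ _).trans ?_) (sq_nonneg L)
      have e2 := nsq_mul_left (w := R j) (by rw [(hR j).hR]; exact (hR j).sq_le_one)
        ((∑ i ∈ range j, p i) * R j * U j)
      have e3 := (hR j).minus (range j) U (fun i => m i * R j * U j) hU rfl
      have e4 : ∑ i ∈ range j, nsq (m i * R j * U j) ≤ ∑ i ∈ range N, nsq (m i * R j * U j) :=
        sum_le_sum_of_subset_of_nonneg (range_mono (mem_range.1 hj).le) fun i _ _ => nsq_nonneg _
      linarith
    have h4 : ∑ j ∈ range N, ∑ i ∈ range N, nsq (m i * R j * U j)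
        ≤ 2 * ∑ i ∈ range N, nsq (m i) := by
      rw [sum_comm, mul_sum]
      refine sum_le_sum fun i _ => ?_
      have e1 := tr_mono (cjle (hW N) (m i))
      rw [mul_smul_comm, smul_mul_assoc, tr_smul, mul_one, ← nsq_eq, mul_sum, sum_mul, tr_sum] at e1
      refine le_trans (le_of_eq (sum_congr rfl fun j _ => ?_)) e1
      rw [nsq_eq, conjTranspose_mul, conjTranspose_mul, (hU j).1, (hR j).hR]
      simp only [mul_assoc, ← mul_assoc (U j) (U j), (hU j).2]
    have h5 : ∑ j ∈ range N, nsq (cm u (U j))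
        = ∑ i ∈ range N, nsq (p i) + ∑ i ∈ range N, nsq (m i) := by
      rw [← sum_add_distrib, hp, hm]
      exact sum_congr rfl fun i _ => (nsq_cm (hU i) u).symm
    have h6 : 0 ≤ ∑ i ∈ range N, nsq (p i) := sum_nonneg fun i _ => nsq_nonneg _
    have h7 : 0 ≤ ∑ i ∈ range N, nsq (m i) := sum_nonneg fun i _ => nsq_nonneg _
    refine (sum_le_sum h3).trans ?_
    rw [← mul_sum, sum_add_distrib, ← mul_sum, ← mul_sum, h5, mul_comm 200, mul_assoc]
    exact mul_le_mul_of_nonneg_left (by linarith) (sq_nonneg L)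

end Pool.Agent.H494Z.QE.RS2
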