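import Pool.Agent.H494Z.QE.Spec
import Pool.Agent.H494Z.QE.RS2

set_option autoImplicit false
set_option linter.unusedSectionVars false
set_option linter.unusedVariables false

namespace Pool.Agent.H494Z.QE

open Matrix Finset Pool.Agent.H304Z.NH
open scoped MatrixOrder ComplexOrder

variable {n : Type} [Fintype n] [DecidableEq n]

theorem res_one (q : ℕ → Mat n) (N : ℕ) (hq : ∀ j < N, IsProj (q j)) (L : ℝ) (hL : 1 ≤ L) :
    ∃ R : Mat n, 0 ≤ R ∧ R ≤ 1 ∧ L * tr (R * ∑ i ∈ range N, q i) ≤ Fintype.card n ∧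
      Fintype.card n - tr (∑ i ∈ range N, q i) ≤ tr R ∧
      ∀ u : Mat n, IsU u → nsq (cm u R) ≤ 200 * L ^ 2 * ∑ j ∈ range N, nsq (cm u (q j)) := by
  let U : ℕ → Mat n := fun j => if j < N then q j else 1
  have hU : ∀ j, IsProj (U j) := by
    intro j
    simp only [U]
    split_ifs with h
    · exact hq j h
    · exact isProj_one
  have hUq : ∀ j ∈ range N, U j = q j := fun j hj => if_pos (mem_range.mp hj)
  have hUN : U N = 1 := if_neg (lt_irrefl N)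
  obtain ⟨R, hR, hRN⟩ := RS2.rs2 U hU L hL
  have hs : ∑ i ∈ range N, U i = ∑ i ∈ range N, q i := sum_congr rfl hUq
  have hr := hR N
  have h1 := (hRN N).1
  rw [hs] at hr h1
  refine ⟨R N, hr.nn, sub_nonneg.1 hr.le_one, ?_, ?_, fun u hu => ?_⟩
  · have a1 := congrArg tr hr.rq
    rw [tr_smul, tr_sub, tr_one] at a1
    have := tr_nonneg hr.nn
    linarith
  · rw [tr_sub, tr_one] at h1
    linarith
  · have a1 := (hRN (N + 1)).2 u hu
    rw [sum_range_succ, sum_range_succ, hUN, Matrix.mul_one, cm_one, nsq_zero, add_zero] at a1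
    have a2 : 0 ≤ ∑ j ∈ range N, nsq (cm u (R j) * U j) := sum_nonneg fun _ _ => nsq_nonneg _
    have a3 : ∑ j ∈ range N, nsq (cm u (U j)) = ∑ j ∈ range N, nsq (cm u (q j)) :=
      sum_congr rfl fun j hj => by rw [hUq j hj]
    rw [a3] at a1
    linarith

theorem th_en (hTH : S_TH) {G : Type} (u : G → Mat n) (hu : ∀ g, IsU (u g)) (S : Finset G)
    (x : Mat n) (hx : 0 ≤ x) (θ₀ θ₁ : ℝ) (h0 : 0 < θ₀) (h1 : θ₀ < θ₁) (N : ℕ) (hN : 0 < N) :
    ∃ p : Mat n, IsProj p ∧ p * x = x * p ∧ θ₀ • p ≤ x ∧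
      (1 - p) * x * (1 - p) ≤ θ₁ • (1 - p) ∧
      en u S p ≤ (2 * N / (θ₁ - θ₀)) ^ 2 * en u S x + S.card * tr x / (θ₀ * N) := by
  obtain ⟨p, a1, a2, a3, a4, a5⟩ := hTH n S (fun s => u s) (fun s => hu s) x hx θ₀ θ₁ h0 h1 N hN
  refine ⟨p, a1, a2, a3, a4, ?_⟩
  rw [sum_coe_sort S (fun s => nsq (cm (u s) p)), sum_coe_sort S (fun s => nsq (cm (u s) x)),
    Fintype.card_coe] at a5
  exact a5

theorem nsq_cand {G : Type} {u : G → Mat n} {S : Finset G} {γ σ : ℝ} {N : ℕ} {q : ℕ → Mat n}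
    (hq : ∀ j < N, Cand u S γ σ (∑ i ∈ range j, q i) (q j)) :
    nsq (∑ i ∈ range N, q i) ≤ (1 + 2 * σ) * tr (∑ i ∈ range N, q i) := by
  rw [nsq_sum_proj q N fun j hj => (hq j hj).1]
  have a1 : ∑ j ∈ range N, tr (q j * ∑ i ∈ range j, q i) ≤ ∑ j ∈ range N, σ * tr (q j) :=
    sum_le_sum fun j hj => (hq j (mem_range.mp hj)).2.2.2
  rw [← Finset.mul_sum, ← tr_sum (range N) q] at a1
  linarith

theorem two_tr_le_card (x : Mat n) : 2 * tr x ≤ Fintype.card n + nsq x := by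
  have h := two_tr_le 1 one_pos (1 : Mat n) x
  rw [conjTranspose_one, Matrix.one_mul, isProj_one.nsq_eq, tr_one] at h
  linarith

theorem cand (hTH : S_TH) (hIMP : S_IMP) (G : Type) [Group G] (S : Finset G) (hK : Kaz G S)
    (σ ε : ℝ) (hσ : 0 < σ) (hσ1 : σ ≤ 1 / 2) (hε : 0 < ε) (hε1 : ε ≤ 1) :
    ∃ γc : ℝ, 0 < γc ∧ ∀ γ : ℝ, 0 < γ → γ ≤ γc → ∃ (W : Finset G) (δ : ℝ), 0 < δ ∧
      ∀ (n : Type) [Fintype n] [DecidableEq n] [Nonempty n] (u : G → Mat n),
        (∀ g, IsU (u g)) → u 1 = 1 →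
        (∀ g ∈ W, ∀ h ∈ W, nsq (df u g h) ≤ δ * Fintype.card n) →
        ∀ (N : ℕ) (q : ℕ → Mat n), (∀ j < N, Cand u S γ σ (∑ i ∈ range j, q i) (q j)) →
          tr (∑ i ∈ range N, q i) ≤ (1 - ε) * Fintype.card n →
          ∃ q', Cand u S γ σ (∑ i ∈ range N, q i) q' := by
  obtain ⟨α, hα⟩ : ∃ α : ℝ, α = σ * ε / 32 := ⟨_, rfl⟩
  have hσε : σ * ε ≤ 1 := by nlinarith
  have hα0 : 0 < α := by rw [hα]; positivity
  have hα1 : α ≤ 1 / 32 := by rw [hα]; linarith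
  obtain ⟨γ₀, hγ₀, hI⟩ := hIMP G S hK (1 / 100) (α ^ 2) (by norm_num) le_rfl (by positivity)
  obtain ⟨M, hM⟩ := exists_nat_gt (16 * (S.card : ℝ) / (ε ^ 2 * γ₀))
  have hM0 : (0 : ℝ) < M := lt_of_le_of_lt (by positivity) hM
  have hM0' : 0 < M := by exact_mod_cast hM0
  obtain ⟨L, hL⟩ : ∃ L : ℝ, L = 64 / (σ * ε ^ 2) := ⟨_, rfl⟩
  have hL1 : 1 ≤ L := by
    rw [hL, le_div_iff₀ (by positivity)]
    nlinarith
  obtain ⟨A, hA⟩ : ∃ A : ℝ, A = (2 * M / (ε / 2 - ε / 4)) ^ 2 * (200 * L ^ 2) := ⟨_, rfl⟩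
  have hA0 : 0 < A := by
    have : 0 < ε / 2 - ε / 4 := by linarith
    rw [hA]; positivity
  refine ⟨γ₀ * ε / (4 * A), by positivity, fun γ hγ hγc => ?_⟩
  obtain ⟨I, _, _, gi, W, δ', hδ', hI2⟩ := hI (γ / 2) (by positivity)
  refine ⟨W, δ' * ε / 2, by positivity, ?_⟩
  intro n _ _ _ u hu hu1 hW N q hq hQ
  have hd : (0 : ℝ) < Fintype.card n := by exact_mod_cast Fintype.card_pos
  set d : ℝ := (Fintype.card n : ℝ) with hdd
  have hqp : ∀ j < N, IsProj (q j) := fun j hj => (hq j hj).1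
  have hn := nsq_cand hq
  obtain ⟨R, hR0, hR1, hR2, hR3, hR4⟩ := res_one q N hqp L hL1
  have hQ0 : 0 ≤ ∑ i ∈ range N, q i := sum_nonneg fun i hi => (hqp i (mem_range.mp hi)).nonneg
  have henQ : ∑ j ∈ range N, en u S (q j) ≤ γ * tr (∑ i ∈ range N, q i) := by
    rw [tr_sum, Finset.mul_sum]
    exact sum_le_sum fun j hj => (hq j (mem_range.mp hj)).2.2.1
  set Q := ∑ i ∈ range N, q i with hQd
  have hQt := tr_nonneg hQ0
  have hεd : 0 < ε * d := mul_pos hε hd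
  have hQd' : tr Q ≤ d := by linarith
  have henR : en u S R ≤ 200 * L ^ 2 * (γ * d) := by
    have a1 : en u S R ≤ ∑ s ∈ S, 200 * L ^ 2 * ∑ j ∈ range N, nsq (cm (u s) (q j)) :=
      sum_le_sum fun s _ => hR4 (u s) (hu s)
    rw [← Finset.mul_sum, sum_comm] at a1
    refine a1.trans (mul_le_mul_of_nonneg_left ?_ (by positivity))
    exact henQ.trans (mul_le_mul_of_nonneg_left hQd' hγ.le)
  obtain ⟨p, hp, hp1, hp2, hp3, hp4⟩ := th_en hTH u hu S R hR0 (ε / 4) (ε / 2) (by positivity)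
    (by linarith) M hM0'
  have hRd : tr R ≤ d := by
    have := tr_mono hR1
    rwa [tr_one] at this
  have hpd : tr p ≤ d := by
    have := tr_mono hp.le_one
    rwa [tr_one] at this
  have hpt : ε * d / 2 ≤ tr p := by
    have a1 := tr_mono hp3
    rw [tr_smul, tr_comm, ← Matrix.mul_assoc, hp.compl.2, Matrix.sub_mul, Matrix.one_mul, tr_sub,
      tr_sub, tr_one] at a1
    have a2 := tr_mul_le hp.nonneg hR1
    rw [Matrix.mul_one] at a2
    have a3 := mul_nonneg hε.le hp.tr_nonneg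
    nlinarith
  have hpe : en u S p ≤ γ₀ * tr p := by
    have a1 : (2 * M / (ε / 2 - ε / 4)) ^ 2 * en u S R ≤ γ₀ * ε / 4 * d := by
      have b1 := mul_le_mul_of_nonneg_left henR (sq_nonneg (2 * M / (ε / 2 - ε / 4)))
      have b2 : (2 * M / (ε / 2 - ε / 4)) ^ 2 * (200 * L ^ 2 * (γ * d)) = A * γ * d := by
        rw [hA]; ring
      have b3 : A * γ ≤ γ₀ * ε / 4 := by
        rw [le_div_iff₀ (by positivity)] at hγc
        linarith
      have b4 := mul_le_mul_of_nonneg_right b3 hd.le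
      linarith
    have a2 : S.card * tr R / (ε / 4 * M) ≤ γ₀ * ε / 4 * d := by
      rw [div_le_iff₀ (by positivity)]
      rw [div_lt_iff₀ (by positivity)] at hM
      have b1 := mul_le_mul_of_nonneg_left hRd (Nat.cast_nonneg (α := ℝ) S.card)
      have b2 := mul_le_mul_of_nonneg_right hM.le hd.le
      nlinarith
    have a3 := mul_le_mul_of_nonneg_left hpt hγ₀.le
    linarith
  have hpg : ∀ g ∈ W, ∀ h ∈ W, nsq (df u g h * p) ≤ δ' * tr p := by
    intro g hg h hh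
    have a1 := nsq_mul_le_right hp.mul_star_le (df u g h)
    have a2 := hW g hg h hh
    have a3 := mul_le_mul_of_nonneg_left hpt hδ'.le
    linarith
  obtain ⟨p', hp', _, hp'2, hp'3⟩ := hI2 n u hu hu1 p hp hpg hpe
  have t1 := tr_proj_le hp' hp
  have hα2 : α ^ 2 ≤ 1 / 2 := by nlinarith
  have t2 : tr p / 2 ≤ tr p' := by
    have := mul_le_mul_of_nonneg_right hα2 hp.tr_nonneg
    linarith
  refine ⟨p', hp', by linarith, ?_, ?_⟩
  · have := mul_le_mul_of_nonneg_left t2 hγ.le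
    linarith
  · have a1 : tr ((p' - p)ᴴ * Q) ≤ α * 2 * d := by
      refine tr_le_of_nsq' hα0.le (by norm_num) hd.le ?_ ?_
      · exact hp'3.trans (mul_le_mul_of_nonneg_left hpd (sq_nonneg α))
      · nlinarith
    rw [conjTranspose_sub, hp'.1, hp.1, Matrix.sub_mul, tr_sub] at a1
    have a2 := tr_mul_le' hQ0 hp2
    rw [Matrix.smul_mul, tr_smul] at a2
    have a3 : tr (p * Q) ≤ σ * ε / 16 * d := by
      have b1 : L * (ε / 4 * tr (p * Q)) ≤ d :=
        (mul_le_mul_of_nonneg_left a2 (by linarith)).trans hR2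
      have b2 : L * (ε / 4 * tr (p * Q)) = tr (p * Q) / (σ * ε / 16) := by
        rw [hL]; field_simp; ring
      rw [b2, div_le_iff₀ (by positivity)] at b1
      linarith
    have a4 : σ * (ε * d / 4) ≤ σ * tr p' := mul_le_mul_of_nonneg_left (by linarith) hσ.le
    have a5 : 0 < σ * (ε * d) := mul_pos hσ hεd
    rw [hα] at a1
    nlinarith

/-- a maximal greedy sequence -/
theorem greedy2 {G : Type} (u : G → Mat n) (S : Finset G) {γ σ : ℝ} (hσ : σ ≤ 1 / 4) :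
    ∃ (N : ℕ) (q : ℕ → Mat n),
      (∀ j < N, Cand u S γ σ (∑ i ∈ range j, q i) (q j) ∧
        ∀ q', Cand u S γ σ (∑ i ∈ range j, q i) q' → tr (q j) ≤ tr q') ∧
      ¬ ∃ q', Cand u S γ σ (∑ i ∈ range N, q i) q' := by
  classical
  have hex : ∀ Q : Mat n, ∃ q, (∃ q', Cand u S γ σ Q q') →
      Cand u S γ σ Q q ∧ 1 ≤ tr q ∧ ∀ q', Cand u S γ σ Q q' → tr q ≤ tr q' := by
    intro Q
    by_cases h : ∃ q', Cand u S γ σ Q q'
    · obtain ⟨q0, hq0⟩ := h
      obtain ⟨k0, hk0⟩ := hq0.1.tr_nat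
      have hex : ∃ k : ℕ, ∃ q, Cand u S γ σ Q q ∧ tr q = k := ⟨k0, q0, hq0, hk0⟩
      obtain ⟨q, hq, hk⟩ := Nat.find_spec hex
      refine ⟨q, fun _ => ⟨hq, ?_, fun q' hq' => ?_⟩⟩
      · have h2 := hq.2.1
        rw [hk] at h2 ⊢
        have : 0 < Nat.find hex := by exact_mod_cast h2
        exact_mod_cast this
      · obtain ⟨k', hk'⟩ := hq'.1.tr_nat
        rw [hk, hk']
        exact_mod_cast Nat.find_min' hex ⟨q', hq', hk'⟩
    · exact ⟨0, fun h' => absurd h' h⟩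
  choose nxt hnxt using hex
  let Qs : ℕ → Mat n := fun j => Nat.rec 0 (fun _ Q => Q + nxt Q) j
  have hs : ∀ j, Qs (j + 1) = Qs j + nxt (Qs j) := fun j => rfl
  have hsum : ∀ j, Qs j = ∑ i ∈ range j, nxt (Qs i) := by
    intro j
    induction j with
    | zero => rfl
    | succ j ih => rw [hs, sum_range_succ, ← ih]
  have hstop : ∃ j, ¬ ∃ q', Cand u S γ σ (Qs j) q' := by
    by_contra hcon
    have hcon' : ∀ j, ∃ q', Cand u S γ σ (Qs j) q' := fun j => by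
      by_contra h
      exact hcon ⟨j, h⟩
    have hge : ∀ j : ℕ, (j : ℝ) ≤ tr (Qs j) := by
      intro j
      induction j with
      | zero =>
        show ((0 : ℕ) : ℝ) ≤ tr (0 : Mat n)
        rw [tr_zero]
        simp
      | succ j ih =>
        rw [hs, tr_add]
        have := (hnxt _ (hcon' j)).2.1
        push_cast
        linarith
    obtain ⟨j, hj⟩ := exists_nat_gt (2 * (Fintype.card n : ℝ))
    have a1 := hge j
    have a2 : nsq (∑ i ∈ range j, nxt (Qs i)) ≤ (1 + 2 * σ) * tr (∑ i ∈ range j, nxt (Qs i)) :=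
      nsq_cand (u := u) (S := S) (γ := γ) (q := fun i => nxt (Qs i)) fun i _ => by
        rw [← hsum]; exact (hnxt _ (hcon' i)).1
    rw [← hsum] at a2
    have a3 := two_tr_le_card (Qs j)
    have a4 : (0 : ℝ) ≤ j := Nat.cast_nonneg j
    nlinarith
  refine ⟨Nat.find hstop, fun j => nxt (Qs j), fun j hj => ?_, ?_⟩
  · have h1 := not_not.mp (Nat.find_min hstop hj)
    rw [← hsum]
    exact ⟨(hnxt _ h1).1, (hnxt _ h1).2.2⟩
  · rw [← hsum]
    exact Nat.find_spec hstop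

end Pool.Agent.H494Z.QE
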