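import Mathlib

set_option autoImplicit false

namespace Pool.Agent.H494Z.QEDefs

/-- every unitary representation of `G` on `E` with a unit vector moved less than `ε` by `S` has a
nonzero invariant vector -/
def KazhdanOn {G : Type} [Group G] (S : Finset G) (ε : ℝ) (E : Type) [NormedAddCommGroup E]
    [InnerProductSpace ℂ E] [CompleteSpace E] : Prop :=
  ∀ π : G →* (E →L[ℂ] E), (∀ g : G, π g ∈ unitary (E →L[ℂ] E)) →
    (∃ v : E, ‖v‖ = 1 ∧ ∀ s ∈ S, ‖(π s) v - v‖ < ε) →
    ∃ w : E, w ≠ 0 ∧ ∀ g : G, (π g) w = w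

/-- Kazhdan's property (T) for a discrete group -/
def PropertyT (G : Type) [Group G] : Prop :=
  ∃ (S : Finset G) (ε : ℝ), 0 < ε ∧
    ∀ (E : Type) [NormedAddCommGroup E] [InnerProductSpace ℂ E] [CompleteSpace E],
      KazhdanOn S ε E

end Pool.Agent.H494Z.QEDefs
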