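import Pool.Agent.H494Z.QE.Schur
import Pool.Agent.H494Z.QE.CovB

set_option autoImplicit false
set_option linter.unusedSectionVars false
set_option linter.unusedVariables false

namespace Pool.Agent.H494Z.QE

open Matrix Finset Pool.Agent.H304Z.NH
open scoped MatrixOrder ComplexOrder

variable {n : Type} [Fintype n] [DecidableEq n]

theorem nsq_sum_orth {ι : Type} [Fintype ι] (m : ι → Mat n)
    (h : ∀ a b, a ≠ b → tr ((m a)ᴴ * m b) = 0) : nsq (∑ a, m a) = ∑ a, nsq (m a) := by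
  classical
  rw [nsq_eq, conjTranspose_sum, Finset.sum_mul, tr_sum]
  refine sum_congr rfl fun a _ => ?_
  rw [Finset.mul_sum, tr_sum, Finset.sum_eq_single a (fun b _ hb => h a b (Ne.symm hb))
    (fun h => absurd (mem_univ a) h), nsq_eq]

theorem isProj_sum {ι : Type} [Fintype ι] (p : ι → Mat n) (hp : ∀ i, IsProj (p i))
    (h : ∀ i j, i ≠ j → p i * p j = 0) : IsProj (∑ i, p i) := by
  classical
  constructor
  · rw [conjTranspose_sum]
    exact sum_congr rfl fun i _ => (hp i).1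
  · rw [Finset.sum_mul]
    refine sum_congr rfl fun a _ => ?_
    rw [Finset.mul_sum, Finset.sum_eq_single a (fun b _ hb => h a b (Ne.symm hb))
      (fun h => absurd (mem_univ a) h), (hp a).2]

theorem sum_nsq_left {ι : Type} [Fintype ι] (α : ι → Mat n) (h : ∑ i, (α i)ᴴ * α i ≤ 1)
    (y : Mat n) : ∑ i, nsq (α i * y) ≤ nsq y := by
  have a1 := tr_mul_le' (mul_star_nonneg y) h
  rw [Matrix.one_mul, ← nsq_eq', Finset.sum_mul, tr_sum] at a1
  simpa only [nsq_mul] using a1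

theorem sum_nsq_right {ι : Type} [Fintype ι] (β : ι → Mat n) (h : ∑ i, β i * (β i)ᴴ ≤ 1)
    (y : Mat n) : ∑ i, nsq (y * β i) ≤ nsq y := by
  have a1 := tr_mul_le (star_mul_nonneg y) h
  rw [Matrix.mul_one, ← nsq_eq, Finset.mul_sum, tr_sum] at a1
  simpa only [nsq_mul] using a1

theorem en_blocks {G ι : Type} [Fintype ι] (u : G → Mat n) (S : Finset G) (α β : ι → Mat n)
    (hα : ∑ i, (α i)ᴴ * α i ≤ 1) (hβ : ∑ i, β i * (β i)ᴴ ≤ 1) (x : Mat n) (hx : xᴴ * x ≤ 1) :
    ∑ i, ∑ j, en u S (α i * x * β j) ≤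
      3 * ∑ i, en u S (α i) + 3 * en u S x + 3 * ∑ j, en u S (β j) := by
  have key : ∀ v : Mat n, ∑ i, ∑ j, nsq (cm v (α i * x * β j)) ≤
      3 * ∑ i, nsq (cm v (α i)) + 3 * nsq (cm v x) + 3 * ∑ j, nsq (cm v (β j)) := by
    intro v
    have a1 : ∀ i j, nsq (cm v (α i * x * β j)) ≤ 3 * nsq (cm v (α i) * x * β j) +
        3 * nsq (α i * cm v x * β j) + 3 * nsq (α i * (x * cm v (β j))) := by
      intro i j
      rw [cm_mul, cm_mul, Matrix.add_mul, Matrix.mul_assoc (α i) x]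
      exact nsq_add3_le _ _ _
    have a2 : ∑ i, ∑ j, nsq (cm v (α i) * x * β j) ≤ ∑ i, nsq (cm v (α i)) :=
      sum_le_sum fun i _ => (sum_nsq_right β hβ _).trans (nsq_mul_le_right (mul_star_le_one hx) _)
    have a3 : ∑ i, ∑ j, nsq (α i * cm v x * β j) ≤ nsq (cm v x) :=
      (sum_le_sum fun i _ => sum_nsq_right β hβ _).trans (sum_nsq_left α hα _)
    have a4 : ∑ i, ∑ j, nsq (α i * (x * cm v (β j))) ≤ ∑ j, nsq (cm v (β j)) := by
      rw [sum_comm]
      exact sum_le_sum fun j _ => (sum_nsq_left α hα _).trans (nsq_mul_le_left hx _)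
    have a5 := sum_le_sum fun i (_ : i ∈ univ) => sum_le_sum fun j (_ : j ∈ univ) => a1 i j
    simp only [sum_add_distrib, ← Finset.mul_sum] at a5
    linarith
  have a1 := sum_le_sum fun s (_ : s ∈ S) => key (u s)
  simp only [sum_add_distrib, ← Finset.mul_sum] at a1
  simp only [en]
  rw [sum_comm (s := S), sum_comm (s := S) (t := univ) (f := fun s i => nsq (cm (u s) (α i))),
    sum_comm (s := S) (t := univ) (f := fun s i => nsq (cm (u s) (β i)))] at a1
  refine le_trans (le_of_eq (sum_congr rfl fun i _ => ?_)) a1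
  rw [sum_comm]

theorem avg_contr {I : Type} [Fintype I] [Nonempty I] (a : I → Mat n)
    (ha : ∀ i, (a i)ᴴ * a i ≤ 1) :
    ((Fintype.card I : ℝ)⁻¹ • ∑ i, a i)ᴴ * ((Fintype.card I : ℝ)⁻¹ • ∑ i, a i) ≤ 1 := by
  have hc : (0 : ℝ) < Fintype.card I := by exact_mod_cast Fintype.card_pos
  have h1 : ∀ i j, (a i)ᴴ * a j + (a j)ᴴ * a i ≤ (2 : ℝ) • (1 : Mat n) := by
    intro i j
    have b1 := star_mul_nonneg (a i - a j)
    have e : (a i - a j)ᴴ * (a i - a j) =
        (a i)ᴴ * a i + (a j)ᴴ * a j - ((a i)ᴴ * a j + (a j)ᴴ * a i) := by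
      rw [conjTranspose_sub]; noncomm_ring
    rw [e, sub_nonneg] at b1
    rw [two_smul]
    exact b1.trans (add_le_add (ha i) (ha j))
  have h2 := sum_le_sum fun i (_ : i ∈ univ) => sum_le_sum fun j (_ : j ∈ univ) => h1 i j
  have e1 : ∑ i, ∑ j, ((a i)ᴴ * a j + (a j)ᴴ * a i) =
      (2 : ℝ) • ((∑ i, a i)ᴴ * ∑ i, a i) := by
    simp only [sum_add_distrib]
    rw [sum_comm (f := fun i j => (a j)ᴴ * a i), two_smul, conjTranspose_sum, Finset.sum_mul_sum]
  rw [e1] at h2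
  simp only [sum_const, card_univ, ← Nat.cast_smul_eq_nsmul ℝ, smul_smul] at h2
  have h3 := rsmul_le (r := (Fintype.card I : ℝ)⁻¹ * (Fintype.card I : ℝ)⁻¹ / 2) (by positivity) h2
  rw [smul_smul, smul_smul] at h3
  rw [rsmul_star, Matrix.smul_mul, Matrix.mul_smul, smul_smul]
  have e2 : (Fintype.card I : ℝ)⁻¹ * (Fintype.card I : ℝ)⁻¹ / 2 * 2 =
      (Fintype.card I : ℝ)⁻¹ * (Fintype.card I : ℝ)⁻¹ := by ring
  have e3 : (Fintype.card I : ℝ)⁻¹ * (Fintype.card I : ℝ)⁻¹ / 2 *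
      (Fintype.card I * (Fintype.card I * 2)) = 1 := by field_simp
  rwa [e2, e3, one_smul] at h3

theorem av_contr {G I : Type} [Fintype I] [Nonempty I] (u : G → Mat n) (hu : ∀ g, IsU (u g))
    (γ : I → G) {w : Mat n} (hw : wᴴ * w ≤ 1) : (av u γ w)ᴴ * av u γ w ≤ 1 := by
  refine avg_contr _ fun i => ?_
  have a1 := conj_le' hw (u (γ i))
  rw [Matrix.mul_one, (hu _).2] at a1
  have e : (u (γ i) * w * (u (γ i))ᴴ)ᴴ * (u (γ i) * w * (u (γ i))ᴴ) =
      u (γ i) * (wᴴ * w) * (u (γ i))ᴴ := by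
    rw [conjTranspose_mul, conjTranspose_mul, conjTranspose_conjTranspose]
    simp only [Matrix.mul_assoc]
    rw [← Matrix.mul_assoc (u (γ i))ᴴ (u (γ i)), (hu _).1, Matrix.one_mul]
  rwa [e]

theorem nsq_csmul (c : ℂ) (x : Mat n) : nsq (c • x) = ‖c‖ ^ 2 * nsq x := by
  rw [nsq_eq, conjTranspose_smul, Matrix.smul_mul, Matrix.mul_smul, smul_smul]
  have e : star c * c = ((‖c‖ ^ 2 : ℝ) : ℂ) := by
    rw [mul_comm, Complex.star_def, Complex.mul_conj, Complex.normSq_eq_norm_sq]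
  rw [e, Complex.coe_smul, tr_smul, nsq_eq]

theorem en_csmul {G : Type} (u : G → Mat n) (S : Finset G) (c : ℂ) (x : Mat n) :
    en u S (c • x) = ‖c‖ ^ 2 * en u S x := by
  simp only [en, Finset.mul_sum]
  refine sum_congr rfl fun s _ => ?_
  rw [← nsq_csmul]
  simp only [cm, Matrix.mul_smul, Matrix.smul_mul, smul_sub]

theorem pi_complex {G : Type} {u : G → Mat n} (hu : ∀ g, IsU (u g)) {S : Finset G} {κ : ℝ}
    (hκ : 0 ≤ κ) {p : Mat n} (hp : IsProj p) (hP : PI u S κ p) (y : Mat n) (h1 : p * y = y)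
    (h2 : y * p = y) : ∃ c : ℂ, nsq (y - c • p) ≤ 4 * κ * en u S y := by
  have h3 : p * yᴴ = yᴴ := by
    have := congrArg conjTranspose h2
    rwa [conjTranspose_mul, hp.1] at this
  have h4 : yᴴ * p = yᴴ := by
    have := congrArg conjTranspose h1
    rwa [conjTranspose_mul, hp.1] at this
  obtain ⟨c₁, hc₁⟩ := hP (y + yᴴ)
    (by rw [conjTranspose_add, conjTranspose_conjTranspose, add_comm])
    (by rw [Matrix.mul_add, Matrix.add_mul, h1, h2, h3, h4])
  obtain ⟨c₂, hc₂⟩ := hP (Complex.I • (y + -yᴴ))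
    (by
      rw [conjTranspose_smul, conjTranspose_add, conjTranspose_neg, conjTranspose_conjTranspose,
        Complex.star_def, Complex.conj_I, neg_smul, ← smul_neg]
      congr 1
      abel)
    (by rw [Matrix.mul_smul, Matrix.smul_mul, Matrix.mul_add, Matrix.add_mul, Matrix.mul_neg,
      Matrix.neg_mul, h1, h2, h3, h4])
  rw [Matrix.mul_add, h1, h3] at hc₁
  rw [Matrix.mul_smul, Matrix.mul_add, Matrix.mul_neg, h1, h3, en_csmul, Complex.norm_I] at hc₂
  have a1 := en_add_le u S y yᴴ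
  have a2 := en_add_le u S y (-yᴴ)
  have a3 : en u S (-yᴴ) = en u S y := by
    rw [← neg_one_smul ℝ, en_smul, en_adj hu]
    ring
  rw [en_adj hu] at a1
  rw [a3] at a2
  refine ⟨((c₁ : ℂ) - Complex.I * c₂) / 2, ?_⟩
  have e : y - (((c₁ : ℂ) - Complex.I * c₂) / 2) • p =
      (1 / 2 : ℝ) • ((y + yᴴ - c₁ • p) + (-Complex.I) • (Complex.I • (y + -yᴴ) - c₂ • p)) := by
    ext i j
    simp only [Matrix.sub_apply, Matrix.add_apply, Matrix.smul_apply, Matrix.neg_apply,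
      smul_eq_mul, Complex.real_smul]
    push_cast
    linear_combination ((y i j - yᴴ i j) / 2) * Complex.I_mul_I
  have a4 := nsq_add_le (y + yᴴ - c₁ • p) ((-Complex.I) • (Complex.I • (y + -yᴴ) - c₂ • p))
  rw [nsq_csmul, norm_neg, Complex.norm_I] at a4
  rw [e, nsq_smul]
  have a5 := mul_le_mul_of_nonneg_left a1 hκ
  have a6 := mul_le_mul_of_nonneg_left a2 hκ
  have a7 := mul_nonneg hκ (en_nonneg u S y)
  linarith

theorem exists_base {ι : Type} [Fintype ι] (r : ι → ι → Prop) (hr : Equivalence r) (f : ι → ℝ) :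
    ∃ b : ι → ι, (∀ i, r i (b i) ∧ f (b i) ≤ f i) ∧ ∀ i j, r i j → b i = b j := by
  classical
  have h : ∀ (T : Finset ι) (i₀ : ι), ∃ j, T.Nonempty → j ∈ T ∧ ∀ k ∈ T, f j ≤ f k := by
    intro T i₀
    by_cases hT : T.Nonempty
    · obtain ⟨j, h1, h2⟩ := exists_min_image T f hT
      exact ⟨j, fun _ => ⟨h1, h2⟩⟩
    · exact ⟨i₀, fun h => absurd h hT⟩
  rcases isEmpty_or_nonempty ι with hι | ⟨⟨i₀⟩⟩
  · exact ⟨id, fun i => (hι.false i).elim, fun i => (hι.false i).elim⟩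
  choose m hm using fun T => h T i₀
  refine ⟨fun i => m (univ.filter (r i)), fun i => ?_, fun i j hij => ?_⟩
  · have hi : i ∈ univ.filter (r i) := by simp [hr.refl]
    obtain ⟨h1, h2⟩ := hm _ ⟨i, hi⟩
    exact ⟨(mem_filter.mp h1).2, h2 i hi⟩
  · have : univ.filter (r i) = univ.filter (r j) := by
      ext k
      simp only [mem_filter, mem_univ, true_and]
      exact ⟨fun h => hr.trans (hr.symm hij) h, fun h => hr.trans hij h⟩
    simp only [this]

end Pool.Agent.H494Z.QE
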