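import Pool.Agent.H494Z.QE.FinA

set_option autoImplicit false
set_option linter.unusedSectionVars false
set_option linter.unusedVariables false

namespace Pool.Agent.H494Z.QE

open Matrix Finset Pool.Agent.H304Z.NH
open scoped MatrixOrder ComplexOrder

variable {n : Type} [Fintype n] [DecidableEq n] {G : Type}

/-- there is an almost intertwiner between the corners -/
def Rel (u : G → Mat n) (S : Finset G) (θ : ℝ) (p q : Mat n) : Prop :=
  ∃ y : Mat n, p * y = y ∧ y * q = y ∧ 0 < nsq y ∧ en u S y ≤ θ * nsq y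

/-- an almost intertwining isometry -/
def Iso (u : G → Mat n) (S : Finset G) (ζ : ℝ) (p q w : Mat n) : Prop :=
  p * w = w ∧ wᴴ * w = q ∧ en u S w ≤ ζ * tr q ∧ tr p - tr q ≤ ζ * tr p

/-- an almost intertwining partial isometry -/
def Link (u : G → Mat n) (S : Finset G) (ζ : ℝ) (p q v : Mat n) : Prop :=
  p * v = v ∧ v * q = v ∧ IsProj (vᴴ * v) ∧ IsProj (v * vᴴ) ∧ en u S v ≤ ζ * tr (vᴴ * v) ∧
    (1 - ζ) * tr p ≤ tr (vᴴ * v) ∧ (1 - ζ) * tr q ≤ tr (vᴴ * v)

theorem mul_init {w q : Mat n} (hq : IsProj q) (hww : wᴴ * w = q) : w * q = w := by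
  have a1 : nsq (w * (1 - q)) = 0 := by
    rw [hq.compl.nsq_mul, hww, Matrix.mul_sub, Matrix.mul_one, hq.2, sub_self, tr_zero]
  have a2 := nsq_eq_zero a1
  rw [Matrix.mul_sub, Matrix.mul_one, sub_eq_zero] at a2
  exact a2.symm

theorem final_proj {w q : Mat n} (hq : IsProj q) (hww : wᴴ * w = q) : IsProj (w * wᴴ) := by
  constructor
  · rw [conjTranspose_mul, conjTranspose_conjTranspose]
  · rw [Matrix.mul_assoc, ← Matrix.mul_assoc wᴴ, hww, ← Matrix.mul_assoc, mul_init hq hww]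

theorem adj_left {p y : Mat n} (hp : IsProj p) (h : p * y = y) : yᴴ * p = yᴴ := by
  have := congrArg conjTranspose h
  rwa [conjTranspose_mul, hp.1] at this

theorem adj_right {p y : Mat n} (hp : IsProj p) (h : y * p = y) : p * yᴴ = yᴴ := by
  have := congrArg conjTranspose h
  rwa [conjTranspose_mul, hp.1] at this

theorem Rel.symm {u : G → Mat n} (hu : ∀ g, IsU (u g)) {S : Finset G} {θ : ℝ} {p q : Mat n}
    (hp : IsProj p) (hq : IsProj q) (h : Rel u S θ p q) : Rel u S θ q p := by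
  obtain ⟨y, h1, h2, h3, h4⟩ := h
  exact ⟨yᴴ, adj_right hq h2, adj_left hp h1, by rwa [nsq_star], by rwa [nsq_star, en_adj hu]⟩

theorem Iso.link {u : G → Mat n} {S : Finset G} {ζ : ℝ} {p q w : Mat n} (hζ : 0 ≤ ζ)
    (hq : IsProj q) (h : Iso u S ζ p q w) : Link u S ζ p q w := by
  obtain ⟨h1, h2, h3, h4⟩ := h
  have := mul_nonneg hζ hq.tr_nonneg
  exact ⟨h1, mul_init hq h2, h2 ▸ hq, final_proj hq h2, by rwa [h2], by rw [h2]; linarith,
    by rw [h2]; linarith⟩

theorem Link.symm {u : G → Mat n} (hu : ∀ g, IsU (u g)) {S : Finset G} {ζ : ℝ} {p q v : Mat n}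
    (hp : IsProj p) (hq : IsProj q) (h : Link u S ζ p q v) : Link u S ζ q p vᴴ := by
  obtain ⟨h1, h2, h3, h4, h5, h6, h7⟩ := h
  refine ⟨adj_right hq h2, adj_left hp h1, ?_, ?_, ?_, ?_, ?_⟩ <;>
    rw [conjTranspose_conjTranspose]
  · exact h4
  · exact h3
  · rwa [en_adj hu, tr_comm]
  · rwa [tr_comm]
  · rwa [tr_comm]

theorem Link.trans {u : G → Mat n} {S : Finset G} {ζ θ : ℝ} {p q r v v' : Mat n}
    (hq : IsProj q) (hq0 : 0 < tr q) (hζ : 0 ≤ ζ) (hζ1 : ζ ≤ 1 / 4) (hθ : 8 * ζ ≤ θ)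
    (h : Link u S ζ p q v) (h' : Link u S ζ q r v') : Rel u S θ p r := by
  obtain ⟨h1, h2, h3, h4, h5, h6, h7⟩ := h
  obtain ⟨k1, k2, k3, k4, k5, k6, k7⟩ := h'
  have a1 : vᴴ * v * q = vᴴ * v := by rw [Matrix.mul_assoc, h2]
  have a2 : v' * v'ᴴ * q = v' * v'ᴴ := by rw [Matrix.mul_assoc, adj_left hq k1]
  have a3 : q * (v' * v'ᴴ) = v' * v'ᴴ := by rw [← Matrix.mul_assoc, k1]
  have b1 := sub_proj_le hq h3 a1
  have b2 := sub_proj_le hq k4 a2
  have b3 := tr_mul_nonneg (sub_nonneg.mpr b1) (sub_nonneg.mpr b2)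
  rw [Matrix.sub_mul, Matrix.mul_sub, Matrix.mul_sub, hq.2, a1, a3, tr_sub, tr_sub, tr_sub,
    ← nsq_mul] at b3
  have b4 := tr_mono b1
  have b5 := tr_mono b2
  rw [tr_comm v'] at b3 b5
  have b6 := en_mul_le u S h3.le_one k4.le_one
  have c1 := mul_le_mul_of_nonneg_left b4 hζ
  have c2 := mul_le_mul_of_nonneg_left b5 hζ
  have c3 := mul_le_mul_of_nonneg_right hζ1 hq0.le
  have c4 : tr q / 2 ≤ nsq (v * v') := by linarith
  refine ⟨v * v', by rw [← Matrix.mul_assoc, h1], by rw [Matrix.mul_assoc, k2], by linarith, ?_⟩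
  have c5 := mul_le_mul hθ c4 (by linarith) (by linarith)
  linarith

theorem boost {u : G → Mat n} {S : Finset G} {C K θ η : ℝ} {p q : Mat n} (hp : IsProj p)
    (hq : IsProj q) (hq0 : 0 < tr q) (htr : tr q ≤ tr p) (hpe : en u S p ≤ η * tr p)
    (hqe : en u S q ≤ η * tr q)
    (hsch : ∀ (y : Mat n) (θ' : ℝ), p * y = y → y * q = y → 0 ≤ θ' → C * θ' ≤ 1 → 0 < nsq y →
      en u S y ≤ θ' * nsq y → ∃ w, Iso u S (C * θ') p q w)
    (hgm : ∀ w : Mat n, p * w = w → wᴴ * w = q → ∃ y : Mat n, yᴴ * y ≤ 1 ∧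
      en u S y ≤ η * tr p ∧ nsq (w - y) ≤ K * en u S w + η * tr p)
    (hθ : 0 ≤ θ) (hCθ : C * θ ≤ 1 / 2) (hK : 0 ≤ K) (hKC : K * (C * θ) ≤ 1 / 100) (hη : 0 ≤ η)
    (hη1 : η ≤ 1 / 200) (hζ : C * (40 * η) ≤ 1) (h : Rel u S θ p q) :
    ∃ w, Iso u S (C * (40 * η)) p q w := by
  obtain ⟨y, h1, h2, h3, h4⟩ := h
  obtain ⟨w, w1, w2, w3, w4⟩ := hsch y θ h1 h2 hθ (by linarith) h3 h4
  obtain ⟨y₁, y1, y2, y3⟩ := hgm w w1 w2
  have a1 := mul_le_mul_of_nonneg_right hCθ hp.tr_nonneg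
  have hpq : tr p ≤ 2 * tr q := by linarith
  have a2 := mul_le_mul_of_nonneg_left hpq hη
  have a3 := mul_le_mul_of_nonneg_right hη1 hq0.le
  have a4 := mul_le_mul_of_nonneg_left w3 hK
  have a5 := mul_le_mul_of_nonneg_right hKC hq0.le
  have hd : nsq (w - p * y₁ * q) ≤ tr q / 50 := by
    have e : w - p * y₁ * q = p * (w - y₁) * q := by
      rw [Matrix.mul_sub, Matrix.sub_mul, w1, mul_init hq w2]
    have b1 := nsq_mul_le_right hq.mul_star_le (p * (w - y₁))
    have b2 := nsq_mul_le_left hp.star_mul_le (w - y₁)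
    rw [e]
    linarith
  have hn : 48 / 100 * tr q ≤ nsq (p * y₁ * q) := by
    have b1 := nsq_add_le (p * y₁ * q) (w - p * y₁ * q)
    rw [add_sub_cancel, nsq_eq w, w2] at b1
    linarith
  have hc : (p * y₁)ᴴ * (p * y₁) ≤ 1 := by
    have b1 := conj_le hp.star_mul_le y₁
    rw [Matrix.mul_one] at b1
    rw [conjTranspose_mul, Matrix.mul_assoc, ← Matrix.mul_assoc pᴴ, ← Matrix.mul_assoc]
    exact b1.trans y1
  have he1 := en_mul_le u S hc hq.mul_star_le
  have he2 := en_mul_le u S hp.star_mul_le (mul_star_le_one y1)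
  refine hsch (p * y₁ * q) (40 * η) ?_ ?_ (by linarith) hζ (by linarith) ?_
  · rw [← Matrix.mul_assoc, ← Matrix.mul_assoc, hp.2]
  · rw [Matrix.mul_assoc, hq.2]
  · have b1 := mul_le_mul_of_nonneg_left hn hη
    have b2 := mul_nonneg hη hq0.le
    linarith

theorem assemble {ι : Type} [Fintype ι] {u : G → Mat n} (hu : ∀ g, IsU (u g)) {S : Finset G}
    {κ θ ζ : ℝ} (hκ : 0 ≤ κ) (hθ : 0 < θ) (hζ : 0 ≤ ζ) (hζ1 : ζ ≤ 1) (p w : ι → Mat n)
    (b : ι → ι) (hp : ∀ i, IsProj (p i)) (horth : ∀ i j, i ≠ j → p i * p j = 0)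
    (hPI : ∀ i, PI u S κ (p i)) (hpe : ∀ i, en u S (p i) ≤ ζ * tr (p i))
    (hw : ∀ i, Iso u S ζ (p i) (p (b i)) (w i)) (hb : ∀ i, tr (p (b i)) ≤ tr (p i))
    (hnr : ∀ i j, b i ≠ b j → ¬ Rel u S θ (p i) (p j))
    (htot : (1 - ζ) * Fintype.card n ≤ ∑ i, tr (p i)) :
    ∃ v : G → Mat n, (∀ s ∈ S, nsq (u s - v s) ≤ 6 * ζ * Fintype.card n) ∧
      ∀ x : Mat n, xᴴ * x ≤ 1 →
        ∃ a : Mat n, (∀ s ∈ S, v s * a = a * v s ∧ (v s)ᴴ * a = a * (v s)ᴴ) ∧
          nsq (x - a) ≤ 6 * (1 / θ + 4 * κ) * en u S x +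
            (16 + 12 * (1 / θ + 4 * κ)) * ζ * Fintype.card n := by
  classical
  have hd : (0 : ℝ) ≤ Fintype.card n := Nat.cast_nonneg _
  have w1 : ∀ i, p i * w i = w i := fun i => (hw i).1
  have w2 : ∀ i, (w i)ᴴ * w i = p (b i) := fun i => (hw i).2.1
  have w3 : ∀ i, w i * p (b i) = w i := fun i => mul_init (hp _) (w2 i)
  have w4 : ∀ i, (w i)ᴴ * p i = (w i)ᴴ := fun i => adj_left (hp _) (w1 i)
  have w5 : ∀ i, p (b i) * (w i)ᴴ = (w i)ᴴ := fun i => adj_right (hp _) (w3 i)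
  have w6 : ∀ i j, i ≠ j → (w i)ᴴ * w j = 0 := fun i j h => by
    rw [← w4, ← w1 j, Matrix.mul_assoc, ← Matrix.mul_assoc (p i), horth i j h, Matrix.zero_mul,
      Matrix.mul_zero]
  have w7 : ∀ i, (w i)ᴴ * w i ≤ 1 := fun i => by rw [w2]; exact (hp _).le_one
  have hE : ∀ i, IsProj (w i * (w i)ᴴ) := fun i => final_proj (hp _) (w2 i)
  have hP : IsProj (∑ i, w i * (w i)ᴴ) := isProj_sum _ hE fun i j h => by
    rw [Matrix.mul_assoc, ← Matrix.mul_assoc (w i)ᴴ, w6 i j h, Matrix.zero_mul, Matrix.mul_zero]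
  have hpp : IsProj (∑ i, p i) := isProj_sum p hp horth
  have hsum : ∑ i, tr (p i) ≤ Fintype.card n := by
    have := tr_mono hpp.le_one
    rwa [tr_sum, tr_one] at this
  have hζd := mul_nonneg hζ hd
  have hsumζ := mul_le_mul_of_nonneg_left hsum hζ
  have hPt : tr (1 - ∑ i, w i * (w i)ᴴ) ≤ 2 * (ζ * Fintype.card n) := by
    have a1 : ∑ i, tr (p i) ≤ ∑ i, (tr (w i * (w i)ᴴ) + ζ * tr (p i)) := by
      refine sum_le_sum fun i _ => ?_
      rw [tr_comm, w2]
      linarith [(hw i).2.2.2]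
    rw [sum_add_distrib, ← Finset.mul_sum] at a1
    rw [tr_sub, tr_one, tr_sum]
    linarith
  have hwe : ∑ i, en u S (w i) ≤ ζ * Fintype.card n := by
    have a1 : ∑ i, en u S (w i) ≤ ∑ i, ζ * tr (p i) :=
      sum_le_sum fun i _ => (hw i).2.2.1.trans (mul_le_mul_of_nonneg_left (hb i) hζ)
    rw [← Finset.mul_sum] at a1
    linarith
  have hpe' : ∑ i, en u S (p i) ≤ ζ * Fintype.card n := by
    have a1 : ∑ i, en u S (p i) ≤ ∑ i, ζ * tr (p i) := sum_le_sum fun i _ => hpe i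
    rw [← Finset.mul_sum] at a1
    linarith
  have hcomm : ∀ (m : Mat n) (i j : ι), b i = b j →
      (∑ k, w k * m * (w k)ᴴ) * (w i * (w j)ᴴ) = (w i * (w j)ᴴ) * ∑ k, w k * m * (w k)ᴴ := by
    intro m i j hij
    rw [Finset.sum_mul, Finset.mul_sum, Finset.sum_eq_single i, Finset.sum_eq_single j]
    · rw [Matrix.mul_assoc, ← Matrix.mul_assoc (w i)ᴴ, w2, hij, w5, Matrix.mul_assoc (w j),
        Matrix.mul_assoc (w i) (w j)ᴴ, ← Matrix.mul_assoc (w j)ᴴ, w2, ← hij,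
        ← Matrix.mul_assoc (w i) (p (b i)), w3, Matrix.mul_assoc]
    · intro k _ hk
      rw [Matrix.mul_assoc (w k), Matrix.mul_assoc, ← Matrix.mul_assoc (w j)ᴴ, w6 j k (Ne.symm hk),
        Matrix.zero_mul, Matrix.mul_zero]
    · exact fun h => absurd (mem_univ _) h
    · intro k _ hk
      rw [Matrix.mul_assoc, ← Matrix.mul_assoc (w k)ᴴ, w6 k i hk, Matrix.zero_mul,
        Matrix.mul_zero]
    · exact fun h => absurd (mem_univ _) h
  refine ⟨fun g => ∑ k, w k * u g * (w k)ᴴ, fun s hs => ?_, fun x hx => ?_⟩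
  · have e : u s - ∑ k, w k * u s * (w k)ᴴ =
        u s * (1 - ∑ i, w i * (w i)ᴴ) + ∑ i, cm (u s) (w i) * (w i)ᴴ := by
      simp only [cm, Matrix.sub_mul, Matrix.mul_sub, Matrix.mul_one, sum_sub_distrib,
        Finset.mul_sum, Matrix.mul_assoc]
      abel
    have a1 := nsq_add_le (u s * (1 - ∑ i, w i * (w i)ᴴ)) (∑ i, cm (u s) (w i) * (w i)ᴴ)
    rw [nsq_U_mul (hu s), hP.compl.nsq_eq, nsq_sum_orth _ (fun i j h => by
      rw [conjTranspose_mul, conjTranspose_conjTranspose, ← Matrix.mul_assoc, tr_comm,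
        Matrix.mul_assoc (w i), ← Matrix.mul_assoc (w j)ᴴ, w6 j i (Ne.symm h), Matrix.zero_mul,
        tr_zero])] at a1
    have a2 : ∑ i, nsq (cm (u s) (w i) * (w i)ᴴ) ≤ ∑ i, en u S (w i) := by
      refine sum_le_sum fun i _ => ?_
      refine (nsq_mul_le_right (by rw [conjTranspose_conjTranspose]; exact w7 i) _).trans ?_
      exact single_le_sum (f := fun s => nsq (cm (u s) (w i))) (fun _ _ => nsq_nonneg _) hs
    show nsq (u s - ∑ k, w k * u s * (w k)ᴴ) ≤ _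
    rw [e]
    linarith
  · have hex : ∀ i j, ∃ a : Mat n, p i * a = a ∧ a * p j = a ∧
        (∀ m : Mat n, (∑ k, w k * m * (w k)ᴴ) * a = a * ∑ k, w k * m * (w k)ᴴ) ∧
        nsq (w i * (w i)ᴴ * x * (w j * (w j)ᴴ) - a) ≤
          1 / θ * en u S (p i * x * p j) + 4 * κ * en u S ((w i)ᴴ * x * w j) := by
      intro i j
      have n1 : 0 ≤ 1 / θ * en u S (p i * x * p j) := mul_nonneg (by positivity) (en_nonneg _ _ _)
      have n2 : 0 ≤ 4 * κ * en u S ((w i)ᴴ * x * w j) :=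
        mul_nonneg (by positivity) (en_nonneg _ _ _)
      by_cases hij : b i = b j
      · obtain ⟨c, hc⟩ := pi_complex hu hκ (hp (b i)) (hPI (b i)) ((w i)ᴴ * x * w j)
          (by rw [← Matrix.mul_assoc, ← Matrix.mul_assoc, w5])
          (by rw [Matrix.mul_assoc, hij, w3])
        refine ⟨c • (w i * (w j)ᴴ), ?_, ?_, fun m => ?_, ?_⟩
        · rw [Matrix.mul_smul, ← Matrix.mul_assoc, w1]
        · rw [Matrix.smul_mul, Matrix.mul_assoc, w4]
        · rw [Matrix.mul_smul, Matrix.smul_mul, hcomm m i j hij]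
        · have e : w i * (w i)ᴴ * x * (w j * (w j)ᴴ) - c • (w i * (w j)ᴴ) =
              w i * ((w i)ᴴ * x * w j - c • p (b i)) * (w j)ᴴ := by
            rw [Matrix.mul_sub, Matrix.sub_mul, Matrix.mul_smul, w3, Matrix.smul_mul]
            simp only [Matrix.mul_assoc]
          have a1 := nsq_mul_le_right (a := (w j)ᴴ)
            (by rw [conjTranspose_conjTranspose]; exact w7 j)
            (w i * ((w i)ᴴ * x * w j - c • p (b i)))
          have a2 := nsq_mul_le_left (w7 i) ((w i)ᴴ * x * w j - c • p (b i))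
          rw [e]
          linarith
      · refine ⟨0, by simp, by simp, by simp, ?_⟩
        have e : w i * (w i)ᴴ * x * (w j * (w j)ᴴ) =
            w i * (w i)ᴴ * (p i * x * p j) * (w j * (w j)ᴴ) := by
          simp only [Matrix.mul_assoc]
          rw [← Matrix.mul_assoc (p j), w1, ← Matrix.mul_assoc (w i)ᴴ (p i), w4]
        have a1 := nsq_mul_le_right (hE j).mul_star_le (w i * (w i)ᴴ * (p i * x * p j))
        have a2 := nsq_mul_le_left (hE i).star_mul_le (p i * x * p j)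
        have a3 : nsq (p i * x * p j) ≤ 1 / θ * en u S (p i * x * p j) := by
          rcases (nsq_nonneg (p i * x * p j)).eq_or_lt with h0 | h0
          · linarith
          · have b1 : ¬ en u S (p i * x * p j) ≤ θ * nsq (p i * x * p j) := fun h =>
              hnr i j hij ⟨p i * x * p j,
                by rw [← Matrix.mul_assoc, ← Matrix.mul_assoc, (hp i).2],
                by rw [Matrix.mul_assoc, (hp j).2], h0, h⟩
            rw [one_div, ← div_eq_inv_mul, le_div_iff₀ hθ]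
            linarith [not_le.mp b1]
        rw [sub_zero, e]
        linarith
    choose a ha1 ha2 ha3 ha4 using hex
    have hc : ∀ m : Mat n, (∑ k, w k * m * (w k)ᴴ) * (∑ t : ι × ι, a t.1 t.2) =
        (∑ t : ι × ι, a t.1 t.2) * ∑ k, w k * m * (w k)ᴴ := by
      intro m
      rw [Finset.mul_sum (s := univ) (f := fun t : ι × ι => a t.1 t.2),
        Finset.sum_mul (s := univ) (f := fun t : ι × ι => a t.1 t.2)]
      exact sum_congr rfl fun t _ => ha3 _ _ m
    refine ⟨∑ t : ι × ι, a t.1 t.2, fun s _ => ⟨hc _, ?_⟩, ?_⟩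
    · have e : (∑ k, w k * u s * (w k)ᴴ)ᴴ = ∑ k, w k * (u s)ᴴ * (w k)ᴴ := by
        rw [conjTranspose_sum]
        refine sum_congr rfl fun k _ => ?_
        rw [conjTranspose_mul, conjTranspose_mul, conjTranspose_conjTranspose, Matrix.mul_assoc]
      show (∑ k, w k * u s * (w k)ᴴ)ᴴ * _ = _ * (∑ k, w k * u s * (w k)ᴴ)ᴴ
      rw [e]
      exact hc _
    · obtain ⟨m, hm⟩ : ∃ m : ι × ι → Mat n, m = fun t =>
          w t.1 * (w t.1)ᴴ * x * (w t.2 * (w t.2)ᴴ) - a t.1 t.2 := ⟨_, rfl⟩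
      have m1 : ∀ t, p t.1 * m t = m t := fun t => by
        simp only [hm, Matrix.mul_sub, ha1, ← Matrix.mul_assoc, w1]
      have m2 : ∀ t, m t * p t.2 = m t := fun t => by
        simp only [hm, Matrix.sub_mul, ha2, Matrix.mul_assoc, w4]
      have m3 : nsq (∑ t, m t) = ∑ t, nsq (m t) := by
        refine nsq_sum_orth m fun t t' h => ?_
        by_cases h1 : t.1 = t'.1
        · have h2 : t'.2 ≠ t.2 := fun h2 => h (Prod.ext h1 h2.symm)
          rw [tr_comm, ← m2 t', ← adj_right (hp _) (m2 t), Matrix.mul_assoc,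
            ← Matrix.mul_assoc (p t'.2), horth _ _ h2, Matrix.zero_mul, Matrix.mul_zero, tr_zero]
        · rw [← m1 t', ← adj_left (hp _) (m1 t), Matrix.mul_assoc,
            ← Matrix.mul_assoc (p t.1), horth _ _ h1, Matrix.zero_mul, Matrix.mul_zero, tr_zero]
      have e1 : ∑ t, m t = (∑ i, w i * (w i)ᴴ) * x * (∑ i, w i * (w i)ᴴ) -
          ∑ t : ι × ι, a t.1 t.2 := by
        simp only [hm, sum_sub_distrib]
        congr 1
        rw [Finset.sum_mul, Finset.sum_mul_sum, Fintype.sum_prod_type]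
      have b1 := en_blocks u S p p
        (by simp only [fun i => (hp i).1, fun i => (hp i).2]; exact hpp.le_one)
        (by simp only [fun i => (hp i).1, fun i => (hp i).2]; exact hpp.le_one) x hx
      have b2 := en_blocks u S (fun i => (w i)ᴴ) w
        (by simp only [conjTranspose_conjTranspose]; exact hP.le_one) hP.le_one x hx
      simp only [en_adj hu] at b2
      have b3 : ∑ t, nsq (m t) ≤ 1 / θ * ∑ i, ∑ j, en u S (p i * x * p j) +
          4 * κ * ∑ i, ∑ j, en u S ((w i)ᴴ * x * w j) := by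
        rw [Fintype.sum_prod_type]
        simp only [Finset.mul_sum, ← sum_add_distrib, hm]
        exact sum_le_sum fun i _ => sum_le_sum fun j _ => ha4 i j
      have b4 : 1 / θ * ∑ i, ∑ j, en u S (p i * x * p j) ≤
          1 / θ * (3 * en u S x + 6 * (ζ * Fintype.card n)) :=
        mul_le_mul_of_nonneg_left (by linarith) (by positivity)
      have b5 : 4 * κ * ∑ i, ∑ j, en u S ((w i)ᴴ * x * w j) ≤
          4 * κ * (3 * en u S x + 6 * (ζ * Fintype.card n)) :=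
        mul_le_mul_of_nonneg_left (by linarith) (by positivity)
      set P := ∑ i, w i * (w i)ᴴ with hPd
      have e2 : x - ∑ t : ι × ι, a t.1 t.2 = ((1 - P) * x + P * (x * (1 - P))) + ∑ t, m t := by
        rw [e1]
        noncomm_ring
      have c1 := nsq_add_le ((1 - P) * x + P * (x * (1 - P))) (∑ t, m t)
      have c2 := nsq_add_le ((1 - P) * x) (P * (x * (1 - P)))
      have c3 := nsq_mul_le_right (mul_star_le_one hx) (1 - P)
      have c4 := nsq_mul_le_left hP.star_mul_le (x * (1 - P))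
      have c5 := nsq_mul_le_left hx (1 - P)
      rw [hP.compl.nsq_eq] at c3 c5
      rw [e2]
      linarith

end Pool.Agent.H494Z.QE
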