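import Pool.Agent.H494Z.QE.FinB

set_option autoImplicit false
set_option linter.unusedSectionVars false
set_option linter.unusedVariables false

namespace Pool.Agent.H494Z.QE

open Matrix Finset Pool.Agent.H304Z.NH
open scoped MatrixOrder ComplexOrder

theorem fin (hGM : S_GM) (hD : S_DEC) (hS : S_SCHUR) : S_FIN := by
  classical
  intro G _ S hK
  obtain ⟨κ, hκ, hD⟩ := hD G S hK
  obtain ⟨C, hC, hS⟩ := hS G S κ hκ
  obtain ⟨K, hK0, hG⟩ := hGM G S hK
  obtain ⟨θ, hθd⟩ : ∃ θ : ℝ, θ = 1 / (100 * C * (K + 1)) := ⟨_, rfl⟩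
  have hθ : 0 < θ := by rw [hθd]; positivity
  have hθ1 : (K + 1) * (C * θ) = 1 / 100 := by rw [hθd]; field_simp
  have hCθ0 : 0 < C * θ := by positivity
  have hKCθ0 : 0 ≤ K * (C * θ) := by positivity
  refine ⟨6 * (1 / θ + 4 * κ), by positivity, fun ε hε => ?_⟩
  obtain ⟨B, hB⟩ : ∃ B : ℝ, B = 16 + 12 * (1 / θ + 4 * κ) := ⟨_, rfl⟩
  have hB16 : 16 ≤ B := by
    have : 0 ≤ 1 / θ + 4 * κ := by positivity
    linarith
  obtain ⟨ζ, hζ, hζ1, hζ2, hζ3⟩ : ∃ ζ : ℝ, 0 < ζ ∧ ζ ≤ ε / B ∧ ζ ≤ θ / 8 ∧ ζ ≤ 1 / 5 :=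
    ⟨min (ε / B) (min (θ / 8) (1 / 5)), lt_min (by positivity) (lt_min (by positivity)
      (by norm_num)), min_le_left _ _, (min_le_right _ _).trans (min_le_left _ _),
      (min_le_right _ _).trans (min_le_right _ _)⟩
  rw [le_div_iff₀ (by linarith)] at hζ1
  obtain ⟨η, hηd⟩ : ∃ η : ℝ, η = ζ / (40 * C) := ⟨_, rfl⟩
  have hη : 0 < η := by rw [hηd]; positivity
  have hζη : C * (40 * η) = ζ := by rw [hηd]; field_simp
  have hηζ : 40 * η ≤ ζ := by nlinarith
  obtain ⟨I, _, _, gi, WG, δG, hδG, hG⟩ := hG η hη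
  obtain ⟨W, δ, hδ, hD⟩ := hD (min η δG) (lt_min hη hδG) WG
  refine ⟨W, δ, hδ, ?_⟩
  intro n _ _ u hu hu1 hW
  have hd : (0 : ℝ) ≤ Fintype.card n := Nat.cast_nonneg _
  obtain ⟨ι, _, p, hp, hp0, horth, htot, hpe, hPI, hgood⟩ := hD n u hu hu1 hW
  have hpη : ∀ i, en u S (p i) ≤ η * tr (p i) := fun i =>
    (hpe i).trans (mul_le_mul_of_nonneg_right (min_le_left _ _) (hp0 i).le)
  have hpζ : ∀ i, en u S (p i) ≤ ζ * tr (p i) := fun i =>
    (hpη i).trans (mul_le_mul_of_nonneg_right (by linarith) (hp0 i).le)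
  have hgd : ∀ i, ∀ g ∈ WG, ∀ h ∈ WG, nsq (df u g h * p i) ≤ δG * tr (p i) := fun i g hg h hh =>
    (hgood i g hg h hh).trans (mul_le_mul_of_nonneg_right (min_le_right _ _) (hp0 i).le)
  have hiso : ∀ i j, Rel u S θ (p i) (p j) → tr (p j) ≤ tr (p i) →
      ∃ w, Iso u S ζ (p i) (p j) w := by
    intro i j hr hle
    by_cases hij : i = j
    · subst hij
      refine ⟨p i, (hp i).2, by rw [(hp i).1, (hp i).2], hpζ i, ?_⟩
      have := mul_nonneg hζ.le (hp0 i).le
      linarith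
    · rw [← hζη]
      refine boost (K := K) (hp i) (hp j) (hp0 j) hle (hpη i) (hpη j) ?_ ?_ hθ.le (by linarith)
        hK0 (by linarith) hη.le (by linarith) (by linarith) hr
      · intro y θ' h1 h2 h3 h4 h5 h6
        exact hS n u hu (p i) (p j) y θ' (hp i) (hp j) (horth i j hij) (hPI i) (hPI j) hle h1 h2
          h3 h4 h5 h6
      · intro w w1 w2
        have w3 : wᴴ * w ≤ 1 := by rw [w2]; exact (hp j).le_one
        obtain ⟨a1, a2⟩ := hG n u hu hu1 Unit (fun _ => w) (tr (p i)) (hp0 i)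
          (by rw [Fintype.sum_unique, nsq_eq, w2]; exact hle) (fun g hg h hh => by
            rw [Fintype.sum_unique, Fintype.sum_unique]
            constructor
            · have b1 := nsq_mul_le_right (mul_star_le_one w3) (df u g h * p i)
              rw [Matrix.mul_assoc, w1] at b1
              exact b1.trans (hgd i g hg h hh)
            · have b1 := nsq_mul_le_left w3 (p j * (df u g h)ᴴ)
              rw [← Matrix.mul_assoc, mul_init (hp j) w2, ← nsq_star (p j * _),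
                conjTranspose_mul, conjTranspose_conjTranspose, (hp j).1] at b1
              exact b1.trans ((hgd j g hg h hh).trans (mul_le_mul_of_nonneg_left hle hδG.le)))
        rw [Fintype.sum_unique] at a1
        rw [Fintype.sum_unique, Fintype.sum_unique] at a2
        exact ⟨av u gi w, av_contr u hu gi w3, a1, a2⟩
  have hlink : ∀ i j, Rel u S θ (p i) (p j) → ∃ v, Link u S ζ (p i) (p j) v := by
    intro i j hr
    rcases le_total (tr (p j)) (tr (p i)) with h | h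
    · obtain ⟨w, hw⟩ := hiso i j hr h
      exact ⟨w, hw.link hζ.le (hp j)⟩
    · obtain ⟨w, hw⟩ := hiso j i (hr.symm hu (hp i) (hp j)) h
      exact ⟨wᴴ, (hw.link hζ.le (hp i)).symm hu (hp j) (hp i)⟩
  have hequiv : Equivalence fun i j => Rel u S θ (p i) (p j) := by
    refine ⟨fun i => ⟨p i, (hp i).2, (hp i).2, ?_, ?_⟩, fun h => h.symm hu (hp _) (hp _),
      fun {i j k} h h' => ?_⟩
    · rw [(hp i).nsq_eq]
      exact hp0 i
    · rw [(hp i).nsq_eq]
      exact (hpζ i).trans (mul_le_mul_of_nonneg_right (by linarith) (hp0 i).le)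
    · obtain ⟨v, hv⟩ := hlink i j h
      obtain ⟨v', hv'⟩ := hlink j k h'
      exact hv.trans (hp j) (hp0 j) hζ.le (by linarith) (by linarith) hv'
  obtain ⟨b, hb1, hb2⟩ := exists_base _ hequiv fun i => tr (p i)
  choose w hw using fun i => hiso i (b i) (hb1 i).1 (hb1 i).2
  obtain ⟨v, hv1, hv2⟩ := assemble hu hκ hθ hζ.le (by linarith) p w b hp horth hPI hpζ hw
    (fun i => (hb1 i).2) (fun i j h hr => h (hb2 i j hr)) (by
      refine le_trans (mul_le_mul_of_nonneg_right ?_ hd) htot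
      have := min_le_left η δG
      linarith)
  refine ⟨v, fun s hs => (hv1 s hs).trans (mul_le_mul_of_nonneg_right ?_ hd), fun x hx => ?_⟩
  · nlinarith
  · obtain ⟨a, ha1, ha2⟩ := hv2 x hx
    refine ⟨a, ha1, ha2.trans ?_⟩
    rw [← hB]
    have := mul_le_mul_of_nonneg_right hζ1 hd
    nlinarith

end Pool.Agent.H494Z.QE
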