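import Pool.Agent.H494Z.QE.Spec
import Pool.Agent.H726Z.NH.TH

set_option autoImplicit false
set_option linter.unusedSectionVars false
set_option linter.unusedVariables false

namespace Pool.Agent.H494Z.QE

open Matrix Finset Pool.Agent.H304Z.NH
open scoped MatrixOrder ComplexOrder

variable {n : Type} [Fintype n] [DecidableEq n]

theorem nsq_cm_adj {u : Mat n} (hu : IsU u) (y : Mat n) : nsq (cm u yᴴ) = nsq (cm u y) := by
  have e : cm u yᴴ = -(cm uᴴ y)ᴴ := by
    simp only [cm, conjTranspose_sub, conjTranspose_mul, conjTranspose_conjTranspose, neg_sub]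
  rw [e, nsq_neg, nsq_star, nsq_cm_star hu]

theorem en_adj {G : Type} {u : G → Mat n} (hu : ∀ g, IsU (u g)) (S : Finset G) (y : Mat n) :
    en u S yᴴ = en u S y :=
  sum_congr rfl fun s _ => nsq_cm_adj (hu s) y

theorem en_add_le {G : Type} (u : G → Mat n) (S : Finset G) (x y : Mat n) :
    en u S (x + y) ≤ 2 * en u S x + 2 * en u S y := by
  simp only [en, Finset.mul_sum, ← sum_add_distrib]
  refine sum_le_sum fun s _ => ?_
  rw [cm_add]
  exact nsq_add_le _ _

theorem en_smul {G : Type} (u : G → Mat n) (S : Finset G) (r : ℝ) (x : Mat n) :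
    en u S (r • x) = r ^ 2 * en u S x := by
  simp only [en, Finset.mul_sum, cm_smul, nsq_smul]

theorem en_le_nsq {G : Type} {u : G → Mat n} (hu : ∀ g, IsU (u g)) (S : Finset G) (x : Mat n) :
    en u S x ≤ 4 * S.card * nsq x := by
  have := sum_le_card_nsmul S (fun s => nsq (cm (u s) x)) (4 * nsq x)
    fun s _ => nsq_cm_le (hu s) x
  rw [nsmul_eq_mul] at this
  rw [en]
  linarith

theorem abs_cm {h z : Mat n} (hh : hᴴ = h) (hz : 0 ≤ z) (e : z * z = h * h) (u : Mat n) :
    nsq (cm u z) ≤ nsq (cm u h) := by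
  obtain ⟨V, lam, hV, hxD⟩ : ∃ (V : Mat n) (lam : n → ℝ), IsU V ∧
      h = Pool.Agent.H726Z.NH.D V lam := by
    have hH : h.IsHermitian := hh
    refine ⟨hH.eigenvectorUnitary, hH.eigenvalues, ⟨by
      simpa [star_eq_conjTranspose] using (Unitary.coe_star_mul_self hH.eigenvectorUnitary), by
      simpa [star_eq_conjTranspose] using (Unitary.coe_mul_star_self hH.eigenvectorUnitary)⟩, ?_⟩
    have := hH.spectral_theorem
    rw [Unitary.conjStarAlgAut_apply] at this
    exact this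
  have h0 : 0 ≤ Pool.Agent.H726Z.NH.D V (fun i => |lam i|) :=
    Pool.Agent.H726Z.NH.D_nonneg V fun i => abs_nonneg _
  have h1 : z = Pool.Agent.H726Z.NH.D V (fun i => |lam i|) := by
    refine (CFC.mul_self_eq_mul_self_iff z _ hz h0).mp ?_
    rw [e, hxD, Pool.Agent.H726Z.NH.D_mul hV, Pool.Agent.H726Z.NH.D_mul hV]
    simp only [abs_mul_abs_self]
  rw [h1, hxD, Pool.Agent.H726Z.NH.nsq_cm hV, Pool.Agent.H726Z.NH.nsq_cm hV]
  refine sum_le_sum fun k _ => sum_le_sum fun l _ => mul_le_mul_of_nonneg_left ?_ (sq_nonneg _)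
  rw [sq_le_sq]
  exact abs_abs_sub_abs_le_abs_sub _ _

theorem schur (hP : S_POL) : S_SCHUR := by
  intro G S κ hκ
  have hS : (0 : ℝ) ≤ S.card := Nat.cast_nonneg _
  have hSκ : 0 ≤ (S.card : ℝ) * κ := mul_nonneg hS hκ
  refine ⟨8 + 128 * (S.card * κ) + 16 * κ, by linarith, ?_⟩
  intro n _ _ u hu p q y θ hp hq hpq hPp hPq htr hpy hyq hθ hC hY hen
  obtain ⟨w, z, hpw, hww, hz, hqz, hy, _⟩ := hP n p q y hp hq htr hpy hyq
  have hzh : zᴴ = z := herm hz
  have hqp : q * p = 0 := by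
    have := congrArg conjTranspose hpq
    rwa [conjTranspose_mul, hp.1, hq.1, conjTranspose_zero] at this
  have hzq : z * q = z := by
    have := congrArg conjTranspose hqz
    rwa [conjTranspose_mul, hq.1, hzh] at this
  have hwp : wᴴ * p = wᴴ := by
    have := congrArg conjTranspose hpw
    rwa [conjTranspose_mul, hp.1] at this
  have hqw : q * w = 0 := by rw [← hpw, ← Matrix.mul_assoc, hqp, Matrix.zero_mul]
  have hwq : wᴴ * q = 0 := by rw [← hwp, Matrix.mul_assoc, hpq, Matrix.mul_zero]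
  have hpz : p * z = 0 := by rw [← hqz, ← Matrix.mul_assoc, hpq, Matrix.zero_mul]
  have hzp : z * p = 0 := by rw [← hzq, Matrix.mul_assoc, hqp, Matrix.mul_zero]
  have hzw : z * w = 0 := by rw [← hzq, Matrix.mul_assoc, hqw, Matrix.mul_zero]
  have hwz : wᴴ * z = 0 := by rw [← hqz, ← Matrix.mul_assoc, hwq, Matrix.zero_mul]
  have hw1 : wᴴ * w ≤ 1 := by rw [hww]; exact hq.le_one
  have hwq' : w * q = w := by
    have a1 : nsq (w * (1 - q)) = 0 := by
      rw [hq.compl.nsq_mul, hww, Matrix.mul_sub, Matrix.mul_one, hq.2, sub_self, tr_zero]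
    have a2 := nsq_eq_zero a1
    rw [Matrix.mul_sub, Matrix.mul_one, sub_eq_zero] at a2
    exact a2.symm
  have hyh : yᴴ = z * wᴴ := by rw [hy, conjTranspose_mul, hzh]
  have k1 : ∀ x : Mat n, wᴴ * (w * x) = q * x := fun x => by rw [← Matrix.mul_assoc, hww]
  have k2 : ∀ x : Mat n, q * (z * x) = z * x := fun x => by rw [← Matrix.mul_assoc, hqz]
  have k3 : ∀ x : Mat n, z * (w * x) = 0 := fun x => by
    rw [← Matrix.mul_assoc, hzw, Matrix.zero_mul]
  have k4 : ∀ x : Mat n, wᴴ * (z * x) = 0 := fun x => by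
    rw [← Matrix.mul_assoc, hwz, Matrix.zero_mul]
  have hZ0 : 0 ≤ z + w * z * wᴴ := add_nonneg hz (conj_nonneg' hz w)
  have hZh := herm hZ0
  have hZe : en u S (z + w * z * wᴴ) ≤ 4 * (θ * nsq y) := by
    have a1 : en u S (z + w * z * wᴴ) ≤ en u S (y + yᴴ) := by
      refine sum_le_sum fun s _ => abs_cm ?_ hZ0 ?_ _
      · rw [conjTranspose_add, conjTranspose_conjTranspose, add_comm]
      · rw [hyh, hy]
        simp only [Matrix.add_mul, Matrix.mul_add, Matrix.mul_assoc, k1, k2, k3, k4, hwz, hqz,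
          Matrix.mul_zero, add_zero, zero_add]
    have a2 := en_add_le u S y yᴴ
    rw [en_adj hu] at a2
    linarith
  have hqZ : q * (z + w * z * wᴴ) = z := by
    rw [Matrix.mul_add, hqz, Matrix.mul_assoc w, ← Matrix.mul_assoc q, hqw, Matrix.zero_mul,
      add_zero]
  have hZq : (z + w * z * wᴴ) * q = z := by
    rw [Matrix.add_mul, hzq, Matrix.mul_assoc, hwq, Matrix.mul_zero, add_zero]
  have hpZ : p * (z + w * z * wᴴ) = w * z * wᴴ := by
    rw [Matrix.mul_add, hpz, zero_add, ← Matrix.mul_assoc, ← Matrix.mul_assoc, hpw]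
  have hZp : (z + w * z * wᴴ) * p = w * z * wᴴ := by
    rw [Matrix.add_mul, hzp, zero_add, Matrix.mul_assoc, hwp]
  obtain ⟨c, hc⟩ := hPq _ hZh (by rw [hqZ, hZq])
  obtain ⟨c', hc'⟩ := hPp _ hZh (by rw [hpZ, hZp])
  rw [hqZ] at hc
  rw [hpZ] at hc'
  have hb := mul_le_mul_of_nonneg_left hZe hκ
  have hκθ : 0 ≤ κ * θ := mul_nonneg hκ hθ
  have hSκθ : 0 ≤ S.card * κ * θ := mul_nonneg hSκ hθ
  have hκθ1 : κ * θ ≤ 1 / 16 := by nlinarith
  have hb2 : κ * θ * nsq y ≤ 1 / 16 * nsq y := mul_le_mul_of_nonneg_right hκθ1 hY.le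
  have hd1 : nsq (y - c • w) ≤ 4 * (κ * θ * nsq y) := by
    have e : y - c • w = w * (z - c • q) := by
      rw [Matrix.mul_sub, Matrix.mul_smul, hwq', hy]
    have := nsq_mul_le_left hw1 (z - c • q)
    rw [e]
    linarith
  have hnw : nsq w = tr q := by rw [nsq_eq, hww]
  have hc2 : nsq y ≤ 4 * (c ^ 2 * tr q) := by
    have a1 := nsq_add_le (c • w) (y - c • w)
    rw [add_sub_cancel, nsq_smul, hnw] at a1
    linarith
  have hcpos : 0 < c ^ 2 := by
    by_contra h
    have : c ^ 2 = 0 := le_antisymm (not_lt.mp h) (sq_nonneg c)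
    rw [this] at hc2
    linarith
  have hny : nsq (w * z * wᴴ) = nsq y := by
    rw [nsq_eq' y, hyh, hy, nsq_eq, conjTranspose_mul, conjTranspose_mul,
      conjTranspose_conjTranspose, hzh]
    simp only [Matrix.mul_assoc, k1, k2]
  have hc3 : nsq y ≤ 4 * (c' ^ 2 * tr p) := by
    have a1 := nsq_add_le (c' • p) (w * z * wᴴ - c' • p)
    rw [add_sub_cancel, nsq_smul, hp.nsq_eq, hny] at a1
    linarith
  have hc'pos : 0 < c' ^ 2 := by
    by_contra h
    have : c' ^ 2 = 0 := le_antisymm (not_lt.mp h) (sq_nonneg c')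
    rw [this] at hc3
    linarith
  refine ⟨w, hpw, hww, ?_, ?_⟩
  · have a1 := en_add_le u S y (-(y - c • w))
    rw [neg_sub, add_sub_cancel, en_smul] at a1
    have a2 := en_le_nsq hu S (c • w - y)
    rw [nsq_sub_comm] at a2
    have a3 := mul_le_mul_of_nonneg_left hd1 (by positivity : (0 : ℝ) ≤ 4 * S.card)
    have a4 : c ^ 2 * en u S w ≤ (2 * θ + 32 * (S.card * κ * θ)) * nsq y := by linarith
    have a5 := mul_le_mul_of_nonneg_left hc2 (by positivity : 0 ≤ 2 * θ + 32 * (S.card * κ * θ))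
    have a6 : 0 ≤ c ^ 2 * (κ * θ * tr q) := mul_nonneg hcpos.le (mul_nonneg hκθ hq.tr_nonneg)
    refine le_of_mul_le_mul_left ?_ hcpos
    linarith
  · have hr : IsProj (p - w * wᴴ) := by
      constructor
      · rw [conjTranspose_sub, hp.1, conjTranspose_mul, conjTranspose_conjTranspose]
      · simp only [Matrix.sub_mul, Matrix.mul_sub, Matrix.mul_assoc, hp.2, hwp, k1]
        rw [← Matrix.mul_assoc p, hpw, ← Matrix.mul_assoc w q, hwq']
        abel
    have e : (p - w * wᴴ) * (w * z * wᴴ - c' • p) = -(c' • (p - w * wᴴ)) := by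
      simp only [Matrix.sub_mul, Matrix.mul_sub, Matrix.mul_assoc, Matrix.mul_smul, hp.2, hwp,
        k1, k2, smul_sub]
      rw [← Matrix.mul_assoc p, hpw]
      abel
    have a1 := nsq_mul_le_left hr.star_mul_le (w * z * wᴴ - c' • p)
    rw [e, nsq_neg, nsq_smul, hr.nsq_eq, tr_sub, tr_comm w, hww] at a1
    have a2 := mul_le_mul_of_nonneg_left hc3 hκθ
    have a3 : 0 ≤ c' ^ 2 * (θ * tr p) := mul_nonneg hc'pos.le (mul_nonneg hθ hp.tr_nonneg)
    have a4 : 0 ≤ c' ^ 2 * (S.card * κ * θ * tr p) :=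
      mul_nonneg hc'pos.le (mul_nonneg hSκθ hp.tr_nonneg)
    refine le_of_mul_le_mul_left ?_ hc'pos
    linarith

end Pool.Agent.H494Z.QE
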